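import Pool.Agent.TH730.PiAd.Grp

/-!
Rings with a size function: rational approximations modulo powers of an element.
-/

set_option autoImplicit false

namespace Pool.Agent.TH730.PiAd

/-- A ring with an element `p` and a size function. -/
structure Sz (R : Type) [CommRing R] where
  N : ℕ
  d : ℕ
  p : R
  sz : R → ℝ
  ν : ℝ
  c : ℝ
  C : ℝ
  B : ℝ
  hN : 2 ≤ N
  hd : 1 ≤ d
  hν : ν ^ d = N
  hν1 : 1 ≤ ν
  hc : 0 < c
  hC : 1 ≤ C
  hB : 1 ≤ B
  sz_zero : sz 0 = 0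
  sz_neg : ∀ x, sz (-x) = sz x
  sz_add : ∀ x y, sz (x + y) ≤ sz x + sz y
  sz_ge : ∀ x, x ≠ 0 → 1 ≤ sz x
  sz_p : ∀ x, sz (p * x) = ν * sz x
  sz_one : sz 1 ≤ B
  fin : ∀ Y : ℝ, {x : R | sz x ≤ Y}.Finite
  card_ge : ∀ Y : ℝ, 0 ≤ Y → c * Y ^ d ≤ ((fin Y).toFinset.card : ℝ)
  card_le : ∀ Y : ℝ, 0 ≤ Y → ((fin Y).toFinset.card : ℝ) ≤ C * (1 + Y) ^ d
  quot_fin : ∀ x : R, x ≠ 0 → Finite (R ⧸ Ideal.span {x})
  quot_le : ∀ x : R, x ≠ 0 → (Nat.card (R ⧸ Ideal.span {x}) : ℝ) ≤ C * sz x ^ d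
  gen : ∀ S : AddSubgroup R, (∀ x, sz x ≤ B → x ∈ S) → S = ⊤
  dig : ∀ x : R, ∃ s : ℕ, s < N ∧ p ∣ x - s
  dig_inj : ∀ s t : ℕ, s < N → t < N → p ∣ (s : R) - t → s = t

namespace Sz

variable {R : Type} [CommRing R] [IsDomain R] (D : Sz R)

/-- the elements of size at most `Y` -/
noncomputable def box (Y : ℝ) : Finset R := (D.fin Y).toFinset

theorem mem_box {Y : ℝ} {x : R} : x ∈ D.box Y ↔ D.sz x ≤ Y := by
  unfold box
  rw [Set.Finite.mem_toFinset]
  rfl

theorem sz_nonneg (x : R) : 0 ≤ D.sz x := by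
  by_cases h : x = 0
  · rw [h, D.sz_zero]
  · linarith [D.sz_ge x h]

theorem sz_sub (x y : R) : D.sz (x - y) ≤ D.sz x + D.sz y := by
  rw [sub_eq_add_neg]
  exact (D.sz_add _ _).trans_eq (by rw [D.sz_neg])

theorem box_card_ge {Y : ℝ} (hY : 0 ≤ Y) : D.c * Y ^ D.d ≤ ((D.box Y).card : ℝ) := D.card_ge Y hY

theorem box_card_le {Y : ℝ} (hY : 0 ≤ Y) : ((D.box Y).card : ℝ) ≤ D.C * (1 + Y) ^ D.d :=
  D.card_le Y hY

theorem N_real : (2 : ℝ) ≤ D.N := by exact_mod_cast D.hN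

theorem ν_pos : 0 < D.ν := by linarith [D.hν1]

theorem p_ne : D.p ≠ 0 := by
  intro h
  have h1 := D.sz_p 1
  rw [h, zero_mul, D.sz_zero] at h1
  have h2 := D.sz_ge 1 one_ne_zero
  have := D.ν_pos
  nlinarith

/-- the ideal generated by `p ^ n` -/
def I (n : ℕ) : Ideal R := Ideal.span {D.p ^ n}

theorem I_finite (n : ℕ) : Finite (R ⧸ D.I n) := D.quot_fin _ (pow_ne_zero _ D.p_ne)

/-- the value of a word -/
def val {n : ℕ} (w : Fin n → Fin D.N) : R := ∑ i : Fin n, ((w i : ℕ) : R) * D.p ^ (i : ℕ)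

theorem val_succ {n : ℕ} (w : Fin (n + 1) → Fin D.N) :
    D.val w = ((w 0 : ℕ) : R) + D.p * D.val (fun i => w i.succ) := by
  unfold val
  rw [Fin.sum_univ_succ]
  simp only [Fin.val_zero, pow_zero, mul_one, Fin.val_succ]
  rw [Finset.mul_sum]
  congr 1
  refine Finset.sum_congr rfl fun i _ => ?_
  ring

theorem val_inj {n : ℕ} (w w' : Fin n → Fin D.N) (h : D.p ^ n ∣ D.val w - D.val w') : w = w' := by
  induction n with
  | zero => funext i; exact i.elim0
  | succ n ih =>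
    rw [D.val_succ, D.val_succ] at h
    have h1 : D.p ∣ ((w 0 : ℕ) : R) - ((w' 0 : ℕ) : R) := by
      have h2 : D.p ∣ D.p ^ (n + 1) := dvd_pow_self _ (Nat.succ_ne_zero n)
      have h3 := h2.trans h
      have h4 : D.p ∣ D.p * (D.val (fun i => w i.succ) - D.val (fun i => w' i.succ)) :=
        dvd_mul_right _ _
      have h5 := dvd_sub h3 h4
      convert h5 using 1
      ring
    have h0 : w 0 = w' 0 := Fin.ext (D.dig_inj _ _ (w 0).2 (w' 0).2 h1)
    have hs : (fun i : Fin n => w i.succ) = fun i => w' i.succ := by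
      apply ih
      have h2 : D.p * D.p ^ n ∣ D.p * (D.val (fun i => w i.succ) - D.val (fun i => w' i.succ)) := by
        rw [← pow_succ']
        convert h using 1
        rw [h0]; ring
      exact (mul_dvd_mul_iff_left D.p_ne).1 h2
    funext i
    refine Fin.cases h0 (fun j => ?_) i
    exact congrFun hs j

theorem val_surj (n : ℕ) (x : R) : ∃ w : Fin n → Fin D.N, D.p ^ n ∣ x - D.val w := by
  induction n generalizing x with
  | zero => exact ⟨fun i => i.elim0, by simp⟩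
  | succ n ih =>
    obtain ⟨s, hs, y, hy⟩ := D.dig x
    obtain ⟨w, hw⟩ := ih y
    refine ⟨Fin.cons ⟨s, hs⟩ w, ?_⟩
    rw [D.val_succ]
    simp only [Fin.cons_zero, Fin.cons_succ]
    have h1 : x - ((s : R) + D.p * D.val w) = D.p * (y - D.val w) := by
      linear_combination hy
    rw [pow_succ', h1]
    exact mul_dvd_mul_left _ hw

theorem mk_eq {n : ℕ} {x y : R} :
    Ideal.Quotient.mk (D.I n) x = Ideal.Quotient.mk (D.I n) y ↔ D.p ^ n ∣ x - y := by
  rw [Ideal.Quotient.eq]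
  exact Ideal.mem_span_singleton

/-- words and residues -/
noncomputable def wordEquiv (n : ℕ) : (Fin n → Fin D.N) ≃ R ⧸ D.I n :=
  Equiv.ofBijective (fun w => Ideal.Quotient.mk (D.I n) (D.val w)) ⟨fun w w' h =>
    D.val_inj w w' (D.mk_eq.1 h), fun v => by
      obtain ⟨x, rfl⟩ := Ideal.Quotient.mk_surjective v
      obtain ⟨w, hw⟩ := D.val_surj n x
      exact ⟨w, (D.mk_eq.2 hw).symm⟩⟩

theorem wordEquiv_apply {n : ℕ} (w : Fin n → Fin D.N) :
    D.wordEquiv n w = Ideal.Quotient.mk (D.I n) (D.val w) := rfl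

theorem card_quot (n : ℕ) : Nat.card (R ⧸ D.I n) = D.N ^ n := by
  rw [← Nat.card_congr (D.wordEquiv n)]
  simp

/-- the pair `(f, g)` reproduces the residue `V` modulo `p ^ n` -/
def Adm (n : ℕ) (V f g : R) : Prop := IsCoprime g D.p ∧ D.p ^ n ∣ g * V - f

theorem adm_self (n : ℕ) (V : R) : D.Adm n V V 1 := ⟨isCoprime_one_left, by simp⟩

theorem p_not_unit : ¬ IsUnit D.p := by
  intro h
  have h1 := D.dig_inj 0 1 (by have := D.hN; omega) (by have := D.hN; omega)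
    (h.dvd)
  omega

theorem Adm.ne {D : Sz R} {n : ℕ} {V f g : R} (h : D.Adm n V f g) : g ≠ 0 := by
  rintro rfl
  exact D.p_not_unit ((isCoprime_zero_left).1 h.1)

theorem exists_min (n : ℕ) (V : R) : ∃ f g : R, D.Adm n V f g ∧ ∀ f' g' : R, D.Adm n V f' g' →
    max (D.sz f) (D.sz g) ≤ max (D.sz f') (D.sz g') := by
  classical
  set Y := max (D.sz V) (D.sz 1) with hY
  let T : Finset (R × R) := (D.box Y ×ˢ D.box Y).filter (fun z => D.Adm n V z.1 z.2)
  have hT : T.Nonempty := by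
    refine ⟨(V, 1), Finset.mem_filter.2 ⟨Finset.mem_product.2 ⟨?_, ?_⟩, D.adm_self n V⟩⟩
    · exact D.mem_box.2 (le_max_left _ _)
    · exact D.mem_box.2 (le_max_right _ _)
  obtain ⟨z, hz, hmin⟩ := T.exists_min_image (fun z => max (D.sz z.1) (D.sz z.2)) hT
  obtain ⟨hz1, hz2⟩ := Finset.mem_filter.1 hz
  obtain ⟨hz3, hz4⟩ := Finset.mem_product.1 hz1
  refine ⟨z.1, z.2, hz2, fun f' g' h' => ?_⟩
  by_cases hle : max (D.sz f') (D.sz g') ≤ Y
  · refine hmin (f', g') (Finset.mem_filter.2 ⟨Finset.mem_product.2 ⟨?_, ?_⟩, h'⟩)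
    · exact D.mem_box.2 ((le_max_left _ _).trans hle)
    · exact D.mem_box.2 ((le_max_right _ _).trans hle)
  · push Not at hle
    exact (max_le (D.mem_box.1 hz3) (D.mem_box.1 hz4)).trans hle.le

/-- the minimal size -/
noncomputable def mu (n : ℕ) (V : R) : ℝ :=
  max (D.sz (D.exists_min n V).choose) (D.sz (D.exists_min n V).choose_spec.choose)

theorem mu_spec (n : ℕ) (V : R) : ∃ f g : R, D.Adm n V f g ∧
    D.mu n V = max (D.sz f) (D.sz g) :=
  ⟨_, _, (D.exists_min n V).choose_spec.choose_spec.1, rfl⟩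

theorem mu_le {n : ℕ} {V f g : R} (h : D.Adm n V f g) : D.mu n V ≤ max (D.sz f) (D.sz g) :=
  (D.exists_min n V).choose_spec.choose_spec.2 f g h

theorem one_le_mu (n : ℕ) (V : R) : 1 ≤ D.mu n V := by
  obtain ⟨f, g, h, he⟩ := D.mu_spec n V
  rw [he]
  exact (D.sz_ge g h.ne).trans (le_max_right _ _)

/-- few words have small minimal size -/
theorem count_mu (n : ℕ) (Y : ℝ) :
    (Finset.univ.filter (fun w : Fin n → Fin D.N => D.mu n (D.val w) ≤ Y)).card ≤
      (D.box Y).card ^ 2 := by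
  classical
  have hsp := fun w : Fin n → Fin D.N => D.mu_spec n (D.val w)
  choose f g hadm hmu using hsp
  rw [pow_two, ← Finset.card_product]
  apply Finset.card_le_card_of_injOn (fun w => (f w, g w))
  · intro w hw
    have h1 := (Finset.mem_filter.1 hw).2
    rw [hmu w] at h1
    refine Finset.mem_coe.2 (Finset.mem_product.2 ⟨?_, ?_⟩)
    · exact D.mem_box.2 ((le_max_left _ _).trans h1)
    · exact D.mem_box.2 ((le_max_right _ _).trans h1)
  · intro w _ w' _ heq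
    rw [Prod.mk.injEq] at heq
    obtain ⟨h1, h2⟩ := heq
    apply D.val_inj
    have h3 := dvd_sub (hadm w).2 (hadm w').2
    rw [← h1, ← h2] at h3
    have h4 : D.p ^ n ∣ g w * (D.val w - D.val w') := by
      convert h3 using 1
      ring
    exact ((hadm w).1.symm.pow_left (m := n)).dvd_of_dvd_mul_left h4

end Sz

end Pool.Agent.TH730.PiAd
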