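import Pool.Agent.TH730.PiAd.Inst

/-!
The two cases, and infinite digit sequences.
-/

set_option autoImplicit false

namespace Pool.Agent.TH730.PiAd

namespace Sz

variable {R : Type} [CommRing R] [IsDomain R] (D : Sz R)

/-- Every fraction has a digit expansion. -/
theorem exists_seq (f g : R) (hg : IsCoprime g D.p) : ∃ a : ℕ → Fin D.N, ∀ k : ℕ,
    D.p ^ k ∣ g * (∑ i ∈ Finset.range k, ((a i : ℕ) : R) * D.p ^ i) - f := by
  obtain ⟨h, t, ht⟩ := hg
  have hstep : ∀ r : R, ∃ (s : Fin D.N) (r' : R), r = g * ((s : ℕ) : R) + D.p * r' := by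
    intro r
    obtain ⟨s, hs, y, hy⟩ := D.dig (h * r)
    refine ⟨⟨s, hs⟩, t * r + g * y, ?_⟩
    simp only
    linear_combination (-r) * ht + g * hy
  choose s r' hr using hstep
  let F : ℕ → R := fun k => Nat.rec f (fun _ r => r' r) k
  have hF : ∀ k, F (k + 1) = r' (F k) := fun k => rfl
  refine ⟨fun k => s (F k), fun k => ⟨-F k, ?_⟩⟩
  have key : f = g * (∑ i ∈ Finset.range k, ((s (F i) : ℕ) : R) * D.p ^ i) + D.p ^ k * F k := by
    induction k with
    | zero => simp [F]
    | succ k ih =>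
      rw [Finset.sum_range_succ, hF]
      have := hr (F k)
      have h2 : D.p ^ k * F k = D.p ^ k * (g * ((s (F k) : ℕ) : R) + D.p * r' (F k)) := by
        rw [← this]
      rw [h2] at ih
      rw [pow_succ]
      linear_combination ih
  linear_combination -key

theorem seq_unique {n : ℕ} (w : Fin n → Fin D.N) (f g : R) (h : D.Adm n (D.val w) f g)
    (a : ℕ → Fin D.N)
    (ha : D.p ^ n ∣ g * (∑ i ∈ Finset.range n, ((a i : ℕ) : R) * D.p ^ i) - f) :
    ∀ i : Fin n, a i = w i := by
  have h1 : (∑ i ∈ Finset.range n, ((a i : ℕ) : R) * D.p ^ i) = D.val (fun i : Fin n => a i) := by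
    unfold val
    rw [← Fin.sum_univ_eq_sum_range (fun i => ((a i : ℕ) : R) * D.p ^ i) n]
  rw [h1] at ha
  have h2 := dvd_sub ha h.2
  have h3 : D.p ^ n ∣ g * (D.val (fun i : Fin n => a i) - D.val w) := by
    convert h2 using 1
    ring
  have h4 := D.val_inj _ _ ((h.1.symm.pow_left (m := n)).dvd_of_dvd_mul_left h3)
  intro i
  exact congrFun h4 i

theorem max_logb {f g : R} (hg : g ≠ 0) :
    max (D.d * Real.logb D.N (D.sz f)) (D.d * Real.logb D.N (D.sz g)) =
      D.d * Real.logb D.N (max (D.sz f) (D.sz g)) := by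
  have hg1 := D.sz_ge g hg
  have hgl : 0 ≤ Real.logb D.N (D.sz g) := Real.logb_nonneg D.N_one hg1
  rw [← mul_max_of_nonneg _ _ D.d_pos.le]
  congr 1
  by_cases hf : f = 0
  · rw [hf, D.sz_zero, Real.logb_zero, max_eq_right hgl, max_eq_right (by linarith)]
  · have hf1 := D.sz_ge f hf
    rcases le_total (D.sz f) (D.sz g) with h | h
    · rw [max_eq_right h, max_eq_right]
      exact Real.logb_le_logb_of_le D.N_one (by linarith) h
    · rw [max_eq_left h, max_eq_left]
      exact Real.logb_le_logb_of_le D.N_one (by linarith) h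

end Sz

section caseI

variable {R : Type} [CommRing R]

/-- the complex number -/
noncomputable def emb (N : ℕ) (B : Module.Basis (Fin 2) ℤ R) (x : R) : ℂ :=
  ⟨((B.repr x 0 : ℤ) : ℝ), ((B.repr x 1 : ℤ) : ℝ) * √N⟩

/-- the algebraic data of the first case -/
noncomputable def algI (N : ℕ) (π : R) (B : Module.Basis (Fin 2) ℤ R) (hN : 2 ≤ N)
    (hB : ∀ i, B i = π ^ (i : ℕ)) (hπ : π ^ 2 = -(N : R)) : Alg R where
  N := N
  d := 2
  p := π
  b := B
  ε := -1
  hN := hN
  hd := by norm_num
  hb := hB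
  hε := Or.inr rfl
  hp := by rw [hπ]; push_cast; ring

/-- the data of the first case -/
noncomputable def preI (N : ℕ) (π : R) (B : Module.Basis (Fin 2) ℤ R) (hN : 2 ≤ N)
    (hB : ∀ i, B i = π ^ (i : ℕ)) (hπ : π ^ 2 = -(N : R)) : Pre R where
  toAlg := algI N π B hN hB hπ
  sz := fun x => ‖emb N B x‖
  ν := √N
  hν := Real.sq_sqrt (Nat.cast_nonneg N)
  hν1 := by
    rw [Real.one_le_sqrt]
    exact_mod_cast (by omega : 1 ≤ N)
  sz_add := by
    intro x y
    have : emb N B (x + y) = emb N B x + emb N B y := by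
      unfold emb
      apply Complex.ext
      · simp
      · simp; ring
    rw [this]
    exact norm_add_le _ _
  sz_smul := by
    intro m x
    have h : ∀ i, B.repr (m • x) i = m * B.repr x i := by
      intro i
      rw [map_zsmul, Finsupp.smul_apply, smul_eq_mul]
    have : emb N B (m • x) = (m : ℝ) • emb N B x := by
      unfold emb
      rw [h, h]
      apply Complex.ext
      · simp
      · simp; ring
    rw [this, norm_smul, Real.norm_eq_abs]
  sz_p := by
    intro x
    have h0 : B.repr (π * x) 0 = -1 * N * B.repr x 1 := (algI N π B hN hB hπ).coef_zero x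
    have h1 : B.repr (π * x) 1 = B.repr x 0 :=
      (algI N π B hN hB hπ).coef_succ x 0 (by show 0 + 1 < 2; norm_num)
    have : emb N B (π * x) = (⟨0, √N⟩ : ℂ) * emb N B x := by
      unfold emb
      rw [h0, h1]
      have hs : √(N : ℝ) * √(N : ℝ) = N := Real.mul_self_sqrt (Nat.cast_nonneg N)
      apply Complex.ext
      · simp only [Complex.mul_re]
        push_cast
        linear_combination ((B.repr x 1 : ℤ) : ℝ) * hs
      · simp only [Complex.mul_im]
        ring
    show ‖emb N B (π * x)‖ = √N * ‖emb N B x‖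
    rw [this, norm_mul]
    congr 1
    have h2 : (⟨0, √N⟩ : ℂ) = ((√N : ℝ) : ℂ) * Complex.I := by
      apply Complex.ext <;> simp
    rw [h2, norm_mul, Complex.norm_I, mul_one, Complex.norm_real, Real.norm_eq_abs,
      abs_of_nonneg (Real.sqrt_nonneg _)]
  sz_one := by
    have h1 : (1 : R) = B 0 := by rw [hB]; simp
    have h2 : emb N B 1 = 1 := by
      unfold emb
      rw [h1, Module.Basis.repr_self]
      apply Complex.ext <;> simp
    rw [h2, norm_one]
  sz_coef := by
    intro x i
    have hre := Complex.abs_re_le_norm (emb N B x)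
    have him := Complex.abs_im_le_norm (emb N B x)
    have key : ∀ i : Fin 2, |((B.repr x i : ℤ) : ℝ)| * √N ^ (i : ℕ) ≤ ‖emb N B x‖ := by
      intro i
      match i with
      | 0 => simpa [emb] using hre
      | 1 =>
        have h1 : |(emb N B x).im| = |((B.repr x 1 : ℤ) : ℝ)| * √N := by
          unfold emb
          rw [abs_mul, abs_of_nonneg (Real.sqrt_nonneg _)]
        rw [h1] at him
        simpa using him
    exact key i

theorem sizeI_eq (N : ℕ) (B : Module.Basis (Fin 2) ℤ R) (x : R) :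
    Real.logb N (((B.repr x 0 : ℤ) : ℝ) ^ 2 + N * ((B.repr x 1 : ℤ) : ℝ) ^ 2) =
      (2 : ℕ) * Real.logb N ‖emb N B x‖ := by
  rw [← Real.logb_pow]
  congr 1
  rw [← Complex.normSq_eq_norm_sq, Complex.normSq_apply]
  unfold emb
  have hs : √(N : ℝ) * √(N : ℝ) = N := Real.mul_self_sqrt (Nat.cast_nonneg N)
  simp only
  linear_combination (-((B.repr x 1 : ℤ) : ℝ) ^ 2) * hs

end caseI

section caseII

variable {R : Type} [CommRing R]

/-- the algebraic data of the second case -/
noncomputable def algII (N d : ℕ) (π : R) (B : Module.Basis (Fin d) ℤ R) (hN : 2 ≤ N) (hd : 1 ≤ d)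
    (hB : ∀ i, B i = π ^ (i : ℕ)) (hπ : π ^ d = (N : R)) : Alg R where
  N := N
  d := d
  p := π
  b := B
  ε := 1
  hN := hN
  hd := hd
  hb := hB
  hε := Or.inl rfl
  hp := by rw [hπ]; push_cast; ring

/-- the root -/
noncomputable def rt (N d : ℕ) : ℝ := (N : ℝ) ^ ((d : ℝ)⁻¹)

theorem rt_pow (N d : ℕ) (hd : 1 ≤ d) : rt N d ^ d = N := by
  unfold rt
  rw [← Real.rpow_natCast, ← Real.rpow_mul (Nat.cast_nonneg N), inv_mul_cancel₀, Real.rpow_one]
  have : d ≠ 0 := by omega
  exact_mod_cast this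

theorem one_le_rt (N d : ℕ) (hN : 2 ≤ N) : 1 ≤ rt N d := by
  unfold rt
  apply Real.one_le_rpow
  · exact_mod_cast (by omega : 1 ≤ N)
  · positivity

/-- the real vector -/
noncomputable def vec (N d : ℕ) (B : Module.Basis (Fin d) ℤ R) (x : R) : Fin d → ℝ :=
  fun i => ((B.repr x i : ℤ) : ℝ) * rt N d ^ (i : ℕ)

theorem norm_vec_apply (N d : ℕ) (hN : 2 ≤ N) (B : Module.Basis (Fin d) ℤ R) (x : R) (i : Fin d) :
    ‖vec N d B x i‖ = |((B.repr x i : ℤ) : ℝ)| * rt N d ^ (i : ℕ) := by
  have := one_le_rt N d hN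
  unfold vec
  rw [norm_mul, Real.norm_eq_abs, Real.norm_eq_abs, abs_of_nonneg (by positivity : 0 ≤ rt N d ^ (i : ℕ))]

theorem le_norm_vec (N d : ℕ) (hN : 2 ≤ N) (B : Module.Basis (Fin d) ℤ R) (x : R) (i : Fin d) :
    |((B.repr x i : ℤ) : ℝ)| * rt N d ^ (i : ℕ) ≤ ‖vec N d B x‖ := by
  have h := norm_le_pi_norm (vec N d B x) i
  rwa [norm_vec_apply N d hN] at h

/-- the data of the second case -/
noncomputable def preII (N d : ℕ) (π : R) (B : Module.Basis (Fin d) ℤ R) (hN : 2 ≤ N) (hd : 1 ≤ d)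
    (hB : ∀ i, B i = π ^ (i : ℕ)) (hπ : π ^ d = (N : R)) : Pre R where
  toAlg := algII N d π B hN hd hB hπ
  sz := fun x => ‖vec N d B x‖
  ν := rt N d
  hν := rt_pow N d hd
  hν1 := one_le_rt N d hN
  sz_add := by
    intro x y
    have : vec N d B (x + y) = vec N d B x + vec N d B y := by
      funext i
      unfold vec
      rw [Pi.add_apply, map_add, Finsupp.add_apply]
      push_cast
      ring
    rw [this]
    exact norm_add_le _ _
  sz_smul := by
    intro m x
    have : vec N d B (m • x) = (m : ℝ) • vec N d B x := by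
      funext i
      unfold vec
      rw [Pi.smul_apply, map_zsmul, Finsupp.smul_apply, smul_eq_mul, smul_eq_mul]
      push_cast
      ring
    rw [this, norm_smul, Real.norm_eq_abs]
  sz_p := by
    intro x
    show ‖vec N d B (π * x)‖ = rt N d * ‖vec N d B x‖
    have hr1 := one_le_rt N d hN
    have hr0 : 0 ≤ rt N d := by linarith
    set A := algII N d π B hN hd hB hπ with hA
    have h0 : B.repr (π * x) A.z = 1 * N * B.repr x A.l := A.coef_zero x
    have h1 : ∀ (i : ℕ) (hi : i + 1 < d), B.repr (π * x) ⟨i + 1, hi⟩ = B.repr x ⟨i, by omega⟩ :=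
      fun i hi => A.coef_succ x i hi
    have hlast : |((B.repr (π * x) A.z : ℤ) : ℝ)| * rt N d ^ (A.z : ℕ) =
        rt N d * (|((B.repr x A.l : ℤ) : ℝ)| * rt N d ^ (A.l : ℕ)) := by
      rw [h0]
      push_cast
      rw [one_mul, abs_mul]
      have h2 : ((A.z : Fin d) : ℕ) = 0 := rfl
      have h3 : ((A.l : Fin d) : ℕ) + 1 = d := by
        show d - 1 + 1 = d
        omega
      rw [h2, pow_zero, mul_one, abs_of_nonneg (Nat.cast_nonneg N : (0 : ℝ) ≤ N)]
      have h4 : rt N d * rt N d ^ (A.l : ℕ) = N := by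
        rw [← pow_succ', ← rt_pow N d hd]
        congr 1
      calc (N : ℝ) * |((B.repr x A.l : ℤ) : ℝ)| =
          (rt N d * rt N d ^ (A.l : ℕ)) * |((B.repr x A.l : ℤ) : ℝ)| := by rw [h4]
        _ = _ := by ring
    have hsucc : ∀ (i : ℕ) (hi : i + 1 < d),
        |((B.repr (π * x) ⟨i + 1, hi⟩ : ℤ) : ℝ)| * rt N d ^ (i + 1) =
        rt N d * (|((B.repr x ⟨i, by omega⟩ : ℤ) : ℝ)| * rt N d ^ i) := by
      intro i hi
      rw [h1 i hi, pow_succ]
      ring
    apply le_antisymm
    · rw [pi_norm_le_iff_of_nonneg (by positivity)]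
      intro i
      rw [norm_vec_apply N d hN]
      rcases i with ⟨_ | i, hi⟩
      · have h2 := le_norm_vec N d hN B x A.l
        have h3 : (⟨0, hi⟩ : Fin d) = A.z := rfl
        rw [h3]
        refine hlast.le.trans ?_
        exact mul_le_mul_of_nonneg_left h2 hr0
      · have h2 := norm_le_pi_norm (vec N d B x) ⟨i, by omega⟩
        rw [norm_vec_apply N d hN] at h2
        have h3 := hsucc i hi
        simp only at h3 ⊢
        rw [h3]
        exact mul_le_mul_of_nonneg_left h2 hr0
    · have hrpos : 0 < rt N d := by linarith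
      rw [← le_div_iff₀' hrpos, pi_norm_le_iff_of_nonneg (by positivity)]
      intro i
      rw [le_div_iff₀' hrpos, norm_vec_apply N d hN]
      by_cases hi : (i : ℕ) + 1 < d
      · have h2 := norm_le_pi_norm (vec N d B (π * x)) ⟨i + 1, hi⟩
        rw [norm_vec_apply N d hN] at h2
        have h3 := hsucc i hi
        simp only at h2
        rw [h3] at h2
        exact h2
      · have h2 := le_norm_vec N d hN B (π * x) A.z
        have h3 : i = A.l := by
          apply Fin.ext
          show (i : ℕ) = d - 1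
          have := i.2
          omega
        rw [h3]
        exact hlast.ge.trans h2
  sz_one := by
    have h1 : (1 : R) = B ⟨0, hd⟩ := by rw [hB]; simp
    have h2 : ∀ i, ‖vec N d B 1 i‖ = if i = ⟨0, hd⟩ then 1 else 0 := by
      intro i
      rw [norm_vec_apply N d hN, h1, Module.Basis.repr_self, Finsupp.single_apply]
      by_cases h : i = ⟨0, hd⟩
      · rw [if_pos h.symm, if_pos h, h]; simp
      · rw [if_neg (Ne.symm h), if_neg h]; simp
    apply le_antisymm
    · rw [pi_norm_le_iff_of_nonneg (by norm_num)]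
      intro i
      rw [h2]
      split_ifs <;> norm_num
    · have h3 := norm_le_pi_norm (vec N d B 1) ⟨0, hd⟩
      rw [h2, if_pos rfl] at h3
      exact h3
  sz_coef := by
    intro x i
    exact le_norm_vec N d hN B x i

theorem sizeII_eq (N d : ℕ) (hN : 2 ≤ N) (hd : 1 ≤ d) (B : Module.Basis (Fin d) ℤ R) (x : R) :
    sSup {y : ℝ | ∃ i : Fin d, B.repr x i ≠ 0 ∧
      y = d * Real.logb N |((B.repr x i : ℤ) : ℝ)| + (i : ℕ)} =
      d * Real.logb N ‖vec N d B x‖ := by
  have hN1 : (1 : ℝ) < N := by exact_mod_cast (by omega : 1 < N)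
  have hd0 : (d : ℝ) ≠ 0 := by
    have : d ≠ 0 := by omega
    exact_mod_cast this
  have hr1 := one_le_rt N d hN
  have hr0 : 0 < rt N d := by linarith
  have hlr : d * Real.logb N (rt N d) = 1 := by
    rw [← Real.logb_pow, rt_pow N d hd, Real.logb_self_eq_one hN1]
  have hval : ∀ i : Fin d, B.repr x i ≠ 0 →
      d * Real.logb N |((B.repr x i : ℤ) : ℝ)| + (i : ℕ) =
      d * Real.logb N (|((B.repr x i : ℤ) : ℝ)| * rt N d ^ (i : ℕ)) := by
    intro i hi
    have h1 : ((B.repr x i : ℤ) : ℝ) ≠ 0 := by exact_mod_cast hi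
    rw [Real.logb_mul (abs_ne_zero.2 h1) (by positivity), Real.logb_pow]
    linear_combination (-(i : ℕ) : ℝ) * hlr
  by_cases hx : B.repr x = 0
  · have h1 : {y : ℝ | ∃ i : Fin d, B.repr x i ≠ 0 ∧
      y = d * Real.logb N |((B.repr x i : ℤ) : ℝ)| + (i : ℕ)} = ∅ := by
      rw [Set.eq_empty_iff_forall_notMem]
      rintro y ⟨i, hi, -⟩
      exact hi (by rw [hx]; rfl)
    have h2 : vec N d B x = 0 := by
      funext i
      unfold vec
      rw [hx]
      simp
    rw [h1, Real.sSup_empty, h2, norm_zero, Real.logb_zero, mul_zero]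
  · have hne : ∃ i, B.repr x i ≠ 0 := by
      by_contra hcon
      push Not at hcon
      exact hx (Finsupp.ext hcon)
    obtain ⟨i0, hi0⟩ := hne
    have : Nonempty (Fin d) := ⟨i0⟩
    obtain ⟨j, -, hj⟩ := Finset.exists_max_image (Finset.univ : Finset (Fin d))
      (fun i => ‖vec N d B x i‖) Finset.univ_nonempty
    have hnorm : ‖vec N d B x‖ = ‖vec N d B x j‖ := by
      apply le_antisymm
      · rw [pi_norm_le_iff_of_nonneg (norm_nonneg _)]
        exact fun i => hj i (Finset.mem_univ _)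
      · exact norm_le_pi_norm _ _
    have hpos : ∀ i : Fin d, B.repr x i ≠ 0 → 0 < ‖vec N d B x i‖ := by
      intro i hi
      rw [norm_vec_apply N d hN]
      have h1 : ((B.repr x i : ℤ) : ℝ) ≠ 0 := by exact_mod_cast hi
      have := abs_pos.2 h1
      positivity
    have hj0 : B.repr x j ≠ 0 := by
      intro h0
      have h1 := hj i0 (Finset.mem_univ _)
      have h2 := hpos i0 hi0
      have h3 : ‖vec N d B x j‖ = 0 := by
        rw [norm_vec_apply N d hN, h0]; simp
      rw [h3] at h1
      linarith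
    have hgr : IsGreatest {y : ℝ | ∃ i : Fin d, B.repr x i ≠ 0 ∧
        y = d * Real.logb N |((B.repr x i : ℤ) : ℝ)| + (i : ℕ)}
        (d * Real.logb N ‖vec N d B x‖) := by
      constructor
      · refine ⟨j, hj0, ?_⟩
        rw [hval j hj0, hnorm, norm_vec_apply N d hN]
      · rintro y ⟨i, hi, rfl⟩
        rw [hval i hi, ← norm_vec_apply N d hN]
        apply mul_le_mul_of_nonneg_left _ (Nat.cast_nonneg d)
        exact Real.logb_le_logb_of_le hN1 (hpos i hi) (norm_le_pi_norm _ _)
    exact hgr.csSup_eq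

end caseII

end Pool.Agent.TH730.PiAd
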