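import Pool.Agent.TH730.PiAd.Up

/-!
The average of the logarithm of the minimal size.
-/

set_option autoImplicit false

namespace Pool.Agent.TH730.PiAd

theorem layer (x : ℝ) (m : ℕ) (hx : x ≤ m) :
    x ≤ ∑ j ∈ Finset.range m, if (j : ℝ) < x then (1 : ℝ) else 0 := by
  induction m with
  | zero => simpa using hx
  | succ m ih =>
    rcases le_or_gt x m with h | h
    · rw [Finset.sum_range_succ]
      have := ih h
      split_ifs <;> linarith
    · have h1 : ∀ j ∈ Finset.range (m + 1), (if (j : ℝ) < x then (1 : ℝ) else 0) = 1 := by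
        intro j hj
        rw [Finset.mem_range] at hj
        have : (j : ℝ) ≤ m := by exact_mod_cast Nat.lt_succ_iff.1 hj
        rw [if_pos (by linarith)]
      rw [Finset.sum_congr rfl h1, Finset.sum_const, Finset.card_range, nsmul_eq_mul, mul_one]
      exact hx

theorem geom (m : ℕ) : ∑ j ∈ Finset.range m, (1 / 4 : ℝ) ^ j ≤ 4 / 3 := by
  have h : ∑ j ∈ Finset.range m, (1 / 4 : ℝ) ^ j = (1 - (1 / 4) ^ m) * (4 / 3) := by
    induction m with
    | zero => simp
    | succ m ih => rw [Finset.sum_range_succ, ih]; ring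
  rw [h]
  have : (0 : ℝ) ≤ (1 / 4) ^ m := by positivity
  nlinarith

namespace Sz

variable {R : Type} [CommRing R] [IsDomain R] (D : Sz R)

/-- The complexity -/
noncomputable def lam (n : ℕ) (V : R) : ℝ := D.d * Real.logb D.N (D.mu n V)

theorem N_one : (1 : ℝ) < D.N := by linarith [D.N_real]

theorem d_pos : (0 : ℝ) < D.d := by exact_mod_cast D.hd

theorem d_logb_ν : D.d * Real.logb D.N D.ν = 1 := by
  rw [← Real.logb_pow, D.hν, Real.logb_self_eq_one D.N_one]

theorem logb_le_two {x : ℝ} (hx : 0 < x) : Real.logb D.N x ≤ 2 * x := by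
  have h1 : Real.log x ≤ x := by
    have := Real.log_le_sub_one_of_pos hx
    linarith
  have h2 : (1 / 2 : ℝ) ≤ Real.log D.N := by
    have h3 : Real.log 2 ≤ Real.log D.N := Real.log_le_log (by norm_num) D.N_real
    have := Real.log_two_gt_d9
    linarith
  unfold Real.logb
  rw [div_le_iff₀ (by linarith)]
  nlinarith

theorem lam_upper : ∃ K : ℝ, ∀ n : ℕ, ∑ w : Fin n → Fin D.N, D.lam n (D.val w) ≤
    ((n : ℝ) / 2 + K) * (D.N : ℝ) ^ n := by
  classical
  obtain ⟨K0, hK0, hsum⟩ := D.sum_ZZ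
  set K2 : ℝ := (1 + D.ν) * (3 / D.c ^ 2 + 1) with hK2
  have hν := D.ν_pos
  have hc := D.hc
  have hK20 : 0 < K2 := by positivity
  have hB0 : 0 < D.B := by linarith [D.hB]
  refine ⟨D.d * Real.logb D.N (K2 * D.B) + 2 * D.d * K0, fun n => ?_⟩
  have := D.I_finite n
  have : Fintype (R ⧸ D.I n) := Fintype.ofFinite _
  have h1 : ∀ w : Fin n → Fin D.N, D.lam n (D.val w) ≤
      ((n : ℝ) / 2 + D.d * Real.logb D.N (K2 * D.B)) +
        2 * D.d * (D.ZZ n (D.wordEquiv n w) (2 * D.rad n) : ℝ) := by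
    intro w
    rw [wordEquiv_apply]
    set Z : ℕ := D.ZZ n (Ideal.Quotient.mk (D.I n) (D.val w)) (2 * D.rad n) with hZ
    have hrad : 0 < D.rad n := by linarith [D.B_le_rad n]
    have hZ1 : (1 : ℝ) ≤ Z := by exact_mod_cast D.one_le_ZZ n _ (by positivity)
    have hZ0 : (0 : ℝ) < Z := by linarith
    have hs0 : 0 < √(D.ν ^ n) := by positivity
    have h2 := D.mu_upper n (D.val w)
    rw [← hZ, ← hK2] at h2
    have hmu0 : 0 < D.mu n (D.val w) := by linarith [D.one_le_mu n (D.val w)]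
    have h3 := Real.logb_le_logb_of_le D.N_one hmu0 h2
    have h4 : K2 * Z * D.rad n = (K2 * D.B) * (Z * √(D.ν ^ n)) := by
      unfold rad; ring
    rw [h4, Real.logb_mul (by positivity) (by positivity),
      Real.logb_mul hZ0.ne' hs0.ne'] at h3
    have h5 : Real.logb D.N (√(D.ν ^ n)) = (n : ℝ) / 2 * Real.logb D.N D.ν := by
      rw [Real.sqrt_eq_rpow, ← Real.rpow_natCast, ← Real.rpow_mul hν.le, Real.logb_rpow_eq_mul_logb_of_pos hν]
      ring
    rw [h5] at h3
    have h6 := D.logb_le_two hZ0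
    unfold lam
    have h7 := mul_le_mul_of_nonneg_left h3 D.d_pos.le
    have h8 := mul_le_mul_of_nonneg_left h6 D.d_pos.le
    have h9 := D.d_logb_ν
    have h10 : D.d * (Real.logb D.N (K2 * D.B) + (Real.logb D.N Z + (n : ℝ) / 2 * Real.logb D.N D.ν)) =
      D.d * Real.logb D.N (K2 * D.B) + D.d * Real.logb D.N Z +
        (n : ℝ) / 2 * (D.d * Real.logb D.N D.ν) := by ring
    rw [h10, h9] at h7
    linarith
  refine (Finset.sum_le_sum fun w _ => h1 w).trans ?_
  rw [Finset.sum_add_distrib, Finset.sum_const, ← Finset.mul_sum,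
    Equiv.sum_comp (D.wordEquiv n) (fun v => (D.ZZ n v (2 * D.rad n) : ℝ)), nsmul_eq_mul]
  have h2 := hsum n
  have h3 : ((Finset.univ : Finset (Fin n → Fin D.N)).card : ℝ) = (D.N : ℝ) ^ n := by
    rw [Finset.card_univ]; simp
  rw [h3]
  push_cast at h2
  have h4 := mul_le_mul_of_nonneg_left h2 (by have := D.d_pos; positivity : (0 : ℝ) ≤ 2 * D.d)
  nlinarith

theorem lam_lower : ∃ K : ℝ, ∀ n : ℕ, ((n : ℝ) / 2 - K) * (D.N : ℝ) ^ n ≤
    ∑ w : Fin n → Fin D.N, D.lam n (D.val w) := by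
  classical
  have hN0 : (0 : ℝ) < D.N := by linarith [D.N_real]
  have hC0 : 0 < D.C := by linarith [D.hC]
  have hd0 : D.d ≠ 0 := by have := D.hd; omega
  refine ⟨D.C ^ 2 * 4 ^ D.d * (4 / 3), fun n => ?_⟩
  have h3 : ((Finset.univ : Finset (Fin n → Fin D.N)).card : ℝ) = (D.N : ℝ) ^ n := by
    rw [Finset.card_univ]; simp
  suffices hs : ∑ w : Fin n → Fin D.N, ((n : ℝ) / 2 - D.lam n (D.val w)) ≤
      D.C ^ 2 * 4 ^ D.d * (4 / 3) * (D.N : ℝ) ^ n by
    rw [Finset.sum_sub_distrib, Finset.sum_const, nsmul_eq_mul, h3] at hs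
    linarith
  have hx : ∀ w : Fin n → Fin D.N, (n : ℝ) / 2 - D.lam n (D.val w) ≤
      ∑ j ∈ Finset.range n, if (j : ℝ) < (n : ℝ) / 2 - D.lam n (D.val w) then (1 : ℝ) else 0 := by
    intro w
    apply layer
    have h1 : 0 ≤ D.lam n (D.val w) :=
      mul_nonneg D.d_pos.le (Real.logb_nonneg D.N_one (D.one_le_mu n _))
    have h2 : (0 : ℝ) ≤ n := by positivity
    linarith
  refine (Finset.sum_le_sum fun w _ => hx w).trans ?_
  rw [Finset.sum_comm]
  have hj : ∀ j ∈ Finset.range n, (∑ w : Fin n → Fin D.N,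
      if (j : ℝ) < (n : ℝ) / 2 - D.lam n (D.val w) then (1 : ℝ) else 0) ≤
      D.C ^ 2 * 4 ^ D.d * (D.N : ℝ) ^ n * (1 / 4) ^ j := by
    intro j _
    rw [Finset.sum_ite, Finset.sum_const_zero, add_zero, Finset.sum_const, nsmul_eq_mul, mul_one]
    -- the threshold
    set Y : ℝ := (D.N : ℝ) ^ (((n : ℝ) / 2 - j) / D.d) with hY
    have hY0 : 0 < Y := Real.rpow_pos_of_pos hN0 _
    have hkey : ∀ w : Fin n → Fin D.N, (j : ℝ) < (n : ℝ) / 2 - D.lam n (D.val w) →
        D.mu n (D.val w) ≤ Y := by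
      intro w hw
      have hmu0 : 0 < D.mu n (D.val w) := by linarith [D.one_le_mu n (D.val w)]
      rw [hY, ← Real.logb_le_iff_le_rpow D.N_one hmu0, le_div_iff₀ D.d_pos]
      unfold lam at hw
      linarith
    by_cases hY1 : 1 ≤ Y
    · have h4 : ((Finset.univ.filter (fun w : Fin n → Fin D.N =>
          (j : ℝ) < (n : ℝ) / 2 - D.lam n (D.val w))).card : ℝ) ≤ ((D.box Y).card : ℝ) ^ 2 := by
        have h5 : (Finset.univ.filter (fun w : Fin n → Fin D.N =>
          (j : ℝ) < (n : ℝ) / 2 - D.lam n (D.val w))).card ≤ (D.box Y).card ^ 2 := by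
          refine le_trans (Finset.card_le_card ?_) (D.count_mu n Y)
          intro w hw
          rw [Finset.mem_filter] at hw ⊢
          exact ⟨hw.1, hkey w hw.2⟩
        exact_mod_cast h5
      have h5 := D.box_card_le hY0.le
      have h6 : (1 + Y) ^ D.d ≤ 2 ^ D.d * Y ^ D.d := by
        rw [← mul_pow]
        exact pow_le_pow_left₀ (by positivity) (by linarith) _
      have h7 : ((D.box Y).card : ℝ) ≤ D.C * (2 ^ D.d * Y ^ D.d) :=
        h5.trans (mul_le_mul_of_nonneg_left h6 hC0.le)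
      have h8 : (Y ^ D.d) ^ 2 ≤ (D.N : ℝ) ^ n * (1 / 4) ^ j := by
        have h9 : Y ^ D.d = (D.N : ℝ) ^ ((n : ℝ) / 2 - j) := by
          rw [hY, ← Real.rpow_natCast, ← Real.rpow_mul hN0.le, div_mul_cancel₀ _ D.d_pos.ne']
        rw [h9, ← Real.rpow_natCast, ← Real.rpow_mul hN0.le]
        have h10 : ((n : ℝ) / 2 - j) * (2 : ℕ) = (n : ℝ) - (2 * j : ℕ) := by push_cast; ring
        rw [h10, Real.rpow_sub hN0, Real.rpow_natCast, Real.rpow_natCast, div_eq_mul_inv]
        apply mul_le_mul_of_nonneg_left _ (by positivity)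
        rw [one_div, inv_pow]
        apply inv_anti₀ (by positivity)
        have h11 : (4 : ℝ) = 2 ^ 2 := by norm_num
        rw [h11, ← pow_mul]
        exact pow_le_pow_left₀ (by norm_num) D.N_real _
      have h9 : (4 : ℝ) ^ D.d = (2 ^ D.d) ^ 2 := by rw [← pow_mul, mul_comm, pow_mul]; norm_num
      calc _ ≤ ((D.box Y).card : ℝ) ^ 2 := h4
        _ ≤ (D.C * (2 ^ D.d * Y ^ D.d)) ^ 2 := pow_le_pow_left₀ (by positivity) h7 2
        _ = D.C ^ 2 * 4 ^ D.d * (Y ^ D.d) ^ 2 := by rw [h9]; ring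
        _ ≤ D.C ^ 2 * 4 ^ D.d * ((D.N : ℝ) ^ n * (1 / 4) ^ j) :=
          mul_le_mul_of_nonneg_left h8 (by positivity)
        _ = _ := by ring
    · have h4 : Finset.univ.filter (fun w : Fin n → Fin D.N =>
          (j : ℝ) < (n : ℝ) / 2 - D.lam n (D.val w)) = ∅ := by
        rw [Finset.filter_eq_empty_iff]
        intro w _ hw
        exact hY1 ((D.one_le_mu n _).trans (hkey w hw))
      rw [h4]
      simp only [Finset.card_empty, Nat.cast_zero]
      positivity
  refine (Finset.sum_le_sum hj).trans ?_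
  rw [← Finset.mul_sum]
  have h4 := geom n
  have h5 : (0 : ℝ) ≤ D.C ^ 2 * 4 ^ D.d * (D.N : ℝ) ^ n := by positivity
  have h6 := mul_le_mul_of_nonneg_left h4 h5
  linarith

end Sz

end Pool.Agent.TH730.PiAd
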