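import Mathlib

/-!
Finite abelian groups: iterated sums of a generating set, kernels of multiplications.
-/

set_option autoImplicit false

namespace Pool.Agent.TH730.PiAd

/-- iterated sums -/
def it {G : Type*} [AddCommGroup G] (A : Finset G) : ℕ → Set G
  | 0 => {0}
  | k + 1 => {x | ∃ y ∈ it A k, ∃ a ∈ A, x = y + a}

section growth

variable {G : Type*} [AddCommGroup G] (A : Finset G)

theorem it_succ_of {k : ℕ} {y a : G} (hy : y ∈ it A k) (ha : a ∈ A) : y + a ∈ it A (k + 1) :=
  ⟨y, hy, a, ha, rfl⟩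

theorem it_mono1 (h0 : (0 : G) ∈ A) {k : ℕ} {y : G} (hy : y ∈ it A k) : y ∈ it A (k + 1) :=
  ⟨y, hy, 0, h0, (add_zero y).symm⟩

theorem it_mono (h0 : (0 : G) ∈ A) {j k : ℕ} (hjk : j ≤ k) {y : G} (hy : y ∈ it A j) :
    y ∈ it A k := by
  induction k, hjk using Nat.le_induction with
  | base => exact hy
  | succ k _ ih => exact it_mono1 A h0 ih

theorem zero_mem_it (h0 : (0 : G) ∈ A) (k : ℕ) : (0 : G) ∈ it A k :=
  it_mono A h0 (Nat.zero_le k) (show (0 : G) ∈ it A 0 from rfl)

theorem it_full (h0 : (0 : G) ∈ A) (hneg : ∀ a ∈ A, -a ∈ A)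
    (hgen : ∀ S : AddSubgroup G, (∀ a ∈ A, a ∈ S) → S = ⊤) {j : ℕ}
    (hst : ∀ y ∈ it A (j + 1), y ∈ it A j) (x : G) : x ∈ it A j := by
  let S : AddSubgroup G :=
    { carrier := {x | ∀ y ∈ it A j, y + x ∈ it A j ∧ y - x ∈ it A j}
      zero_mem' := fun y hy => by simpa using hy
      add_mem' := by
        intro a b ha hb y hy
        refine ⟨?_, ?_⟩
        · rw [← add_assoc]
          exact (hb _ (ha y hy).1).1
        · rw [← sub_sub]
          exact (hb _ (ha y hy).2).2
      neg_mem' := by
        intro a ha y hy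
        refine ⟨?_, ?_⟩
        · rw [← sub_eq_add_neg]
          exact (ha y hy).2
        · rw [sub_neg_eq_add]
          exact (ha y hy).1 }
  have hS : S = ⊤ := hgen S fun a ha y hy => ⟨hst _ (it_succ_of A hy ha), by
    rw [sub_eq_add_neg]
    exact hst _ (it_succ_of A hy (hneg a ha))⟩
  have hx : x ∈ S := by rw [hS]; trivial
  have := (hx 0 (zero_mem_it A h0 j)).1
  rwa [zero_add] at this

theorem growth [Fintype G] (h0 : (0 : G) ∈ A) (hneg : ∀ a ∈ A, -a ∈ A)
    (hgen : ∀ S : AddSubgroup G, (∀ a ∈ A, a ∈ S) → S = ⊤) (k : ℕ)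
    (hk : Fintype.card G < (k + 1) * A.card) (x : G) : x ∈ it A (3 * k + 1) := by
  classical
  by_contra hx
  have hex : ∀ j : ℕ, ∃ z : G, j ≤ 3 * k → z ∈ it A (j + 1) ∧ z ∉ it A j := by
    intro j
    by_cases hj : j ≤ 3 * k
    · by_contra hcon
      push Not at hcon
      have hst : ∀ y ∈ it A (j + 1), y ∈ it A j := by
        intro y hy
        by_contra hyn
        exact hyn ((hcon y).2 hy)
      exact hx (it_mono A h0 (by omega) (it_full A h0 hneg hgen hst x))
    · exact ⟨0, fun h => absurd h hj⟩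
  choose z hz using hex
  have hdisj : ∀ i ∈ Finset.range (k + 1), ∀ i' ∈ Finset.range (k + 1), i ≠ i' →
      Disjoint (A.image fun a => z (3 * i) + a) (A.image fun a => z (3 * i') + a) := by
    have key : ∀ i i' : ℕ, i < i' → i' ≤ k → ∀ a ∈ A, ∀ a' ∈ A,
        z (3 * i) + a ≠ z (3 * i') + a' := by
      intro i i' hii hk' a ha a' ha' heq
      have h1 := (hz (3 * i) (by omega)).1
      have h2 := (hz (3 * i') (by omega)).2
      apply h2
      have h3 : z (3 * i') = z (3 * i) + a + -a' := by
        rw [heq]; abel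
      rw [h3]
      exact it_mono A h0 (by omega) (it_succ_of A (it_succ_of A h1 ha) (hneg a' ha'))
    intro i hi i' hi' hne
    rw [Finset.mem_range] at hi hi'
    rw [Finset.disjoint_left]
    intro y hy hy'
    obtain ⟨a, ha, rfl⟩ := Finset.mem_image.1 hy
    obtain ⟨a', ha', heq⟩ := Finset.mem_image.1 hy'
    rcases lt_or_gt_of_ne hne with h | h
    · exact key i i' h (by omega) a ha a' ha' heq.symm
    · exact key i' i h (by omega) a' ha' a ha heq
  have hcard := Finset.card_biUnion (s := Finset.range (k + 1))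
    (t := fun i => A.image fun a => z (3 * i) + a) hdisj
  have himg : ∀ i ∈ Finset.range (k + 1), (A.image fun a => z (3 * i) + a).card = A.card :=
    fun i _ => Finset.card_image_of_injective _ (add_right_injective _)
  rw [Finset.sum_congr rfl himg, Finset.sum_const, Finset.card_range, smul_eq_mul] at hcard
  have := Finset.card_le_univ ((Finset.range (k + 1)).biUnion fun i =>
    A.image fun a => z (3 * i) + a)
  omega

end growth

section ker

variable {R : Type*} [CommRing R]

/-- the number of solutions of `y v = 0` -/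
noncomputable def ke {G : Type*} [CommRing G] (y : G) : ℕ :=
  Nat.card (AddMonoidHom.mulLeft y).ker

theorem ke_le_of_dvd {G : Type*} [CommRing G] [Finite G] {x y : G} (h : x ∣ y) :
    ke x ≤ ke y := by
  unfold ke
  apply Nat.card_le_card_of_injective
    (fun v : (AddMonoidHom.mulLeft x).ker => (⟨v.1, by
      obtain ⟨z, rfl⟩ := h
      have := v.2
      rw [AddMonoidHom.mem_ker, AddMonoidHom.coe_mulLeft] at this ⊢
      rw [mul_assoc, mul_comm z, ← mul_assoc, this, zero_mul]⟩ : (AddMonoidHom.mulLeft y).ker))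
  intro v w hvw
  apply Subtype.ext
  exact congrArg (fun t : (AddMonoidHom.mulLeft y).ker => t.1) hvw

theorem ke_eq {G : Type*} [CommRing G] [Finite G] (y : G) :
    ke y = Nat.card (G ⧸ Ideal.span {y}) := by
  unfold ke
  have h1 := (AddMonoidHom.mulLeft y).ker.card_mul_index
  rw [AddSubgroup.index_ker] at h1
  have h2 := (Ideal.span {y}).toAddSubgroup.card_mul_index
  have h3 : (AddMonoidHom.mulLeft y).range = (Ideal.span {y}).toAddSubgroup := by
    ext v
    rw [AddMonoidHom.mem_range, Submodule.mem_toAddSubgroup, Ideal.mem_span_singleton]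
    constructor
    · rintro ⟨w, rfl⟩; exact ⟨w, rfl⟩
    · rintro ⟨w, rfl⟩; exact ⟨w, rfl⟩
  rw [h3] at h1
  have h4 : 0 < Nat.card (Ideal.span {y}).toAddSubgroup := Nat.card_pos
  have h5 : (Ideal.span {y}).toAddSubgroup.index = Nat.card (G ⧸ Ideal.span {y}) := rfl
  rw [← h5]
  apply Nat.eq_of_mul_eq_mul_left h4
  rw [h2, ← h1, mul_comm]

/-- The kernel of a multiplication modulo an ideal is at most the quotient. -/
theorem ke_le (I : Ideal R) [Finite (R ⧸ I)] (y : R) [Finite (R ⧸ Ideal.span {y})] :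
    ke (Ideal.Quotient.mk I y) ≤ Nat.card (R ⧸ Ideal.span {y}) := by
  rw [ke_eq]
  let f : R →+* (R ⧸ I) ⧸ Ideal.span {Ideal.Quotient.mk I y} :=
    (Ideal.Quotient.mk _).comp (Ideal.Quotient.mk I)
  have hf : ∀ a ∈ Ideal.span {y}, f a = 0 := by
    intro a ha
    obtain ⟨b, rfl⟩ := Ideal.mem_span_singleton.1 ha
    show Ideal.Quotient.mk _ (Ideal.Quotient.mk I (y * b)) = 0
    rw [Ideal.Quotient.eq_zero_iff_mem, map_mul]
    exact Ideal.mul_mem_right _ _ (Ideal.mem_span_singleton_self _)
  apply Nat.card_le_card_of_surjective (Ideal.Quotient.lift (Ideal.span {y}) f hf)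
  apply Ideal.Quotient.lift_surjective_of_surjective
  exact Ideal.Quotient.mk_surjective.comp Ideal.Quotient.mk_surjective

/-- fibres of a multiplication -/
theorem fib_le {G : Type*} [CommRing G] [Fintype G] [DecidableEq G] (x y : G) :
    (Finset.univ.filter (fun v : G => y = x * v)).card ≤ ke x := by
  rcases (Finset.univ.filter (fun v : G => y = x * v)).eq_empty_or_nonempty with h | ⟨v0, hv0⟩
  · rw [h]; simp
  · rw [Finset.mem_filter] at hv0
    unfold ke
    rw [← Fintype.card_coe, ← Nat.card_eq_fintype_card]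
    apply Nat.card_le_card_of_injective
      (fun v : {v // v ∈ Finset.univ.filter (fun v : G => y = x * v)} =>
        (⟨v.1 - v0, by
          have := (Finset.mem_filter.1 v.2).2
          rw [AddMonoidHom.mem_ker, AddMonoidHom.coe_mulLeft, mul_sub, ← this, ← hv0.2,
            sub_self]⟩ : (AddMonoidHom.mulLeft x).ker))
    intro v w hvw
    apply Subtype.ext
    have := congrArg (fun t : (AddMonoidHom.mulLeft x).ker => t.1) hvw
    exact sub_left_injective this

end ker

end Pool.Agent.TH730.PiAd
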