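import Pool.Agent.TH730.PiAd.Fin

/-!
Rings with an integral basis `1, p, ..., p ^ (d - 1)` where `p ^ d = ± N`.
-/

set_option autoImplicit false

namespace Pool.Agent.TH730.PiAd

/-- The algebraic data. -/
structure Alg (R : Type) [CommRing R] where
  N : ℕ
  d : ℕ
  p : R
  b : Module.Basis (Fin d) ℤ R
  ε : ℤ
  hN : 2 ≤ N
  hd : 0 < d
  hb : ∀ i, b i = p ^ (i : ℕ)
  hε : ε = 1 ∨ ε = -1
  hp : p ^ d = ((ε * N : ℤ) : R)

namespace Alg

variable {R : Type} [CommRing R] (A : Alg R)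

/-- the first index -/
def z : Fin A.d := ⟨0, A.hd⟩

/-- the last index -/
def l : Fin A.d := ⟨A.d - 1, by have := A.hd; omega⟩

theorem bz : A.b A.z = 1 := by rw [A.hb]; simp [z]

theorem coef_succ (x : R) (i : ℕ) (hi : i + 1 < A.d) :
    A.b.repr (A.p * x) ⟨i + 1, hi⟩ = A.b.repr x ⟨i, by omega⟩ := by
  have h : (A.b.coord ⟨i + 1, hi⟩) ∘ₗ (LinearMap.mulLeft ℤ A.p) = A.b.coord ⟨i, by omega⟩ := by
    apply A.b.ext
    intro j
    simp only [LinearMap.comp_apply, LinearMap.mulLeft_apply, Module.Basis.coord_apply]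
    rw [A.hb j, ← pow_succ']
    by_cases hj : (j : ℕ) + 1 < A.d
    · have h1 : A.p ^ ((j : ℕ) + 1) = A.b ⟨j + 1, hj⟩ := by rw [A.hb]
      rw [h1, ← A.hb j, Module.Basis.repr_self, Module.Basis.repr_self]
      simp only [Finsupp.single_apply]
      by_cases hij : (j : ℕ) = i
      · rw [if_pos (by simp [hij]), if_pos (by ext; simp [hij])]
      · rw [if_neg (by simp [hij]), if_neg (by
          intro h; apply hij; rw [h])]
    · have h1 : (j : ℕ) + 1 = A.d := by have := j.2; omega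
      rw [h1, A.hp, ← A.hb j, Module.Basis.repr_self]
      have h2 : ((A.ε * A.N : ℤ) : R) = (A.ε * A.N : ℤ) • A.b A.z := by
        rw [A.bz, zsmul_one]
      rw [h2, map_zsmul, Module.Basis.repr_self]
      simp only [Finsupp.smul_apply, Finsupp.single_apply]
      rw [if_neg (by simp [z]), if_neg (by
        intro h
        have : (j : ℕ) = i := by rw [h]
        omega)]
      simp
  exact LinearMap.congr_fun h x

theorem coef_zero (x : R) : A.b.repr (A.p * x) A.z = A.ε * A.N * A.b.repr x A.l := by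
  have h : (A.b.coord A.z) ∘ₗ (LinearMap.mulLeft ℤ A.p) = (A.ε * A.N : ℤ) • A.b.coord A.l := by
    apply A.b.ext
    intro j
    simp only [LinearMap.comp_apply, LinearMap.mulLeft_apply, Module.Basis.coord_apply,
      LinearMap.smul_apply]
    rw [A.hb j, ← pow_succ']
    by_cases hj : (j : ℕ) + 1 < A.d
    · have h1 : A.p ^ ((j : ℕ) + 1) = A.b ⟨j + 1, hj⟩ := by rw [A.hb]
      rw [h1, ← A.hb j, Module.Basis.repr_self, Module.Basis.repr_self]
      simp only [Finsupp.single_apply]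
      rw [if_neg (by simp [z]), if_neg (by
        intro h
        have : (j : ℕ) = A.d - 1 := by rw [h]; rfl
        omega)]
      simp
    · have h1 : (j : ℕ) + 1 = A.d := by have := j.2; omega
      have h3 : j = A.l := by
        apply Fin.ext
        show (j : ℕ) = A.d - 1
        omega
      rw [h1, A.hp, ← A.hb j, Module.Basis.repr_self, h3]
      have h2 : ((A.ε * A.N : ℤ) : R) = (A.ε * A.N : ℤ) • A.b A.z := by
        rw [A.bz, zsmul_one]
      rw [h2, map_zsmul, Module.Basis.repr_self]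
      simp
  exact LinearMap.congr_fun h x

theorem span (S : AddSubgroup R) (h : ∀ i, A.b i ∈ S) : S = ⊤ := by
  rw [eq_top_iff]
  intro x _
  rw [← A.b.sum_repr x]
  exact AddSubgroup.sum_mem _ fun i _ => AddSubgroup.zsmul_mem _ (h i) _

theorem p_dvd_N : A.p ∣ ((A.N : ℤ) : R) := by
  have h1 : A.p ∣ A.p ^ A.d := dvd_pow_self _ (by have := A.hd; omega)
  rw [A.hp] at h1
  rcases A.hε with h | h
  · rw [h] at h1; simpa using h1
  · rw [h] at h1
    simpa using h1

theorem dig (x : R) : ∃ s : ℕ, s < A.N ∧ A.p ∣ x - s := by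
  have h : ∀ x : R, ∃ u : ℤ, A.p ∣ x - u := by
    let S : AddSubgroup R :=
      { carrier := {x | ∃ u : ℤ, A.p ∣ x - u}
        zero_mem' := ⟨0, by simp⟩
        add_mem' := by
          rintro x y ⟨u, hu⟩ ⟨v, hv⟩
          refine ⟨u + v, ?_⟩
          have := dvd_add hu hv
          push_cast
          convert this using 1
          ring
        neg_mem' := by
          rintro x ⟨u, hu⟩
          refine ⟨-u, ?_⟩
          have := dvd_neg.2 hu
          push_cast
          convert this using 1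
          ring }
    have hS : S = ⊤ := A.span S fun i => by
      rcases Nat.eq_zero_or_pos (i : ℕ) with h | h
      · refine ⟨1, ?_⟩
        rw [A.hb, h]
        simp
      · refine ⟨0, ?_⟩
        rw [A.hb, Int.cast_zero, sub_zero]
        exact dvd_pow_self _ (by omega)
    intro x
    have : x ∈ S := by rw [hS]; trivial
    exact this
  obtain ⟨u, hu⟩ := h x
  have hN0 : (0 : ℤ) < A.N := by have := A.hN; exact_mod_cast (by omega : 0 < A.N)
  refine ⟨(u % A.N).toNat, ?_, ?_⟩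
  · have h1 := Int.emod_nonneg u hN0.ne'
    have h2 := Int.emod_lt_of_pos u hN0
    omega
  · have h1 := Int.emod_nonneg u hN0.ne'
    have h2 : (((u % A.N).toNat : ℕ) : R) = ((u % A.N : ℤ) : R) := by
      rw [← Int.cast_natCast, Int.toNat_of_nonneg h1]
    rw [h2]
    have h3 : A.p ∣ (u : R) - ((u % A.N : ℤ) : R) := by
      refine A.p_dvd_N.trans ⟨((u / A.N : ℤ) : R), ?_⟩
      rw [← Int.cast_sub, ← Int.cast_mul]
      congr 1
      have := Int.emod_add_mul_ediv u A.N
      linarith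
    have h4 := dvd_add hu h3
    convert h4 using 1
    ring

theorem dig_inj (s t : ℕ) (hs : s < A.N) (ht : t < A.N) (h : A.p ∣ (s : R) - t) : s = t := by
  obtain ⟨y, hy⟩ := h
  have h1 := A.coef_zero y
  have h2 : (s : R) - t = ((s : ℤ) - t) • A.b A.z := by
    rw [A.bz, zsmul_one]; push_cast; ring
  rw [← hy, h2, map_zsmul, Module.Basis.repr_self] at h1
  simp only [Finsupp.smul_apply, Finsupp.single_eq_same, smul_eq_mul, mul_one] at h1
  have h3 : (A.N : ℤ) ∣ (s : ℤ) - t := ⟨A.ε * A.b.repr y A.l, by rw [h1]; ring⟩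
  have h4 : |(s : ℤ) - t| < A.N := by rw [abs_lt]; constructor <;> omega
  have h5 := Int.eq_zero_of_abs_lt_dvd h3 h4
  omega

end Alg

/-- The data with a size function. -/
structure Pre (R : Type) [CommRing R] extends Alg R where
  sz : R → ℝ
  ν : ℝ
  hν : ν ^ d = N
  hν1 : 1 ≤ ν
  sz_add : ∀ x y, sz (x + y) ≤ sz x + sz y
  sz_smul : ∀ (m : ℤ) (x : R), sz (m • x) = |(m : ℝ)| * sz x
  sz_p : ∀ x, sz (p * x) = ν * sz x
  sz_one : sz 1 = 1
  sz_coef : ∀ x i, |((b.repr x i : ℤ) : ℝ)| * ν ^ (i : ℕ) ≤ sz x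

namespace Pre

variable {R : Type} [CommRing R] (D : Pre R)

theorem sz_zero : D.sz 0 = 0 := by
  have := D.sz_smul 0 0
  simpa using this

theorem sz_neg (x : R) : D.sz (-x) = D.sz x := by
  have := D.sz_smul (-1) x
  simpa using this

theorem ν_pow (i : ℕ) : 1 ≤ D.ν ^ i := one_le_pow₀ D.hν1

theorem coef_le (x : R) (i : Fin D.d) : |((D.b.repr x i : ℤ) : ℝ)| ≤ D.sz x := by
  have h1 := D.sz_coef x i
  have h2 := D.ν_pow i
  have h3 := abs_nonneg ((D.b.repr x i : ℤ) : ℝ)
  nlinarith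

theorem sz_nonneg (x : R) : 0 ≤ D.sz x :=
  (abs_nonneg _).trans (D.coef_le x D.z)

theorem sz_ge (x : R) (hx : x ≠ 0) : 1 ≤ D.sz x := by
  by_contra hcon
  push Not at hcon
  apply hx
  have h : D.b.repr x = 0 := by
    ext i
    have h1 := (D.coef_le x i).trans_lt hcon
    have h2 : |D.b.repr x i| < 1 := by exact_mod_cast h1
    have h3 := Int.abs_lt_one_iff.1 h2
    simpa using h3
  exact (LinearEquiv.map_eq_zero_iff _).1 h

theorem sz_pow (i : ℕ) : D.sz (D.p ^ i) = D.ν ^ i := by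
  induction i with
  | zero => simp [D.sz_one]
  | succ i ih => rw [pow_succ', D.sz_p, ih, pow_succ']

theorem sz_pow_mul (i : ℕ) (x : R) : D.sz (D.p ^ i * x) = D.ν ^ i * D.sz x := by
  induction i with
  | zero => simp
  | succ i ih => rw [pow_succ', mul_assoc, D.sz_p, ih, pow_succ']; ring

theorem sz_sum {ι : Type} (s : Finset ι) (f : ι → R) : D.sz (∑ i ∈ s, f i) ≤ ∑ i ∈ s, D.sz (f i) := by
  classical
  induction s using Finset.induction_on with
  | empty => simp [D.sz_zero]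
  | insert a s ha ih =>
    rw [Finset.sum_insert ha, Finset.sum_insert ha]
    exact (D.sz_add _ _).trans (by linarith)

theorem sub_box (Y : ℝ) : {x : R | D.sz x ≤ Y} ⊆
    D.b.equivFun ⁻¹' (Fintype.piFinset (fun _ : Fin D.d => Finset.Icc (-⌊Y⌋) ⌊Y⌋) : Finset (Fin D.d → ℤ)) := by
  intro x hx
  rw [Set.mem_preimage, Finset.mem_coe, Fintype.mem_piFinset]
  intro i
  have h1 := (D.coef_le x i).trans hx
  have h2 : |D.b.repr x i| ≤ ⌊Y⌋ := by
    rw [Int.le_floor]
    push_cast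
    exact h1
  rw [abs_le] at h2
  rw [Module.Basis.equivFun_apply, Finset.mem_Icc]
  exact h2

theorem fin (Y : ℝ) : {x : R | D.sz x ≤ Y}.Finite :=
  (Set.Finite.preimage (D.b.equivFun.injective.injOn) (Finset.finite_toSet _)).subset (D.sub_box Y)

theorem card_le (Y : ℝ) (hY : 0 ≤ Y) :
    ((D.fin Y).toFinset.card : ℝ) ≤ 2 ^ D.d * (1 + Y) ^ D.d := by
  have h1 : (D.fin Y).toFinset.card ≤
      (Fintype.piFinset (fun _ : Fin D.d => Finset.Icc (-⌊Y⌋) ⌊Y⌋)).card := by
    apply Finset.card_le_card_of_injOn D.b.equivFun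
    · intro x hx
      exact D.sub_box Y ((Set.Finite.mem_toFinset _).1 (Finset.mem_coe.1 hx))
    · exact D.b.equivFun.injective.injOn
  rw [Fintype.card_piFinset, Finset.prod_const, Int.card_Icc, Finset.card_univ, Fintype.card_fin] at h1
  have h0 : 0 ≤ ⌊Y⌋ := Int.floor_nonneg.2 hY
  have h2 : (((⌊Y⌋ + 1 - -⌊Y⌋).toNat : ℕ) : ℝ) ≤ 2 * (1 + Y) := by
    have h3 : (((⌊Y⌋ + 1 - -⌊Y⌋).toNat : ℕ) : ℤ) = ⌊Y⌋ + 1 - -⌊Y⌋ := Int.toNat_of_nonneg (by omega)
    have h4 : (((⌊Y⌋ + 1 - -⌊Y⌋).toNat : ℕ) : ℝ) = ((⌊Y⌋ + 1 - -⌊Y⌋ : ℤ) : ℝ) := by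
      exact_mod_cast h3
    rw [h4]
    push_cast
    have := Int.floor_le Y
    linarith
  rw [← mul_pow]
  calc ((D.fin Y).toFinset.card : ℝ) ≤ (((⌊Y⌋ + 1 - -⌊Y⌋).toNat ^ D.d : ℕ) : ℝ) := by
        exact_mod_cast h1
    _ = (((⌊Y⌋ + 1 - -⌊Y⌋).toNat : ℕ) : ℝ) ^ D.d := by push_cast; rfl
    _ ≤ _ := pow_le_pow_left₀ (by positivity) h2 _

/-- the constant for lower bounds -/
noncomputable def cc : ℝ := ∏ i : Fin D.d, (1 / (D.d * D.ν ^ (i : ℕ)))

theorem d_pos : (0 : ℝ) < D.d := by exact_mod_cast D.hd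

theorem cc_pos : 0 < D.cc := by
  unfold cc
  apply Finset.prod_pos
  intro i _
  have h1 := D.ν_pow i
  have h2 := D.d_pos
  positivity

theorem card_ge (Y : ℝ) (hY : 0 ≤ Y) : D.cc * Y ^ D.d ≤ ((D.fin Y).toFinset.card : ℝ) := by
  set m : Fin D.d → ℤ := fun i => ⌊Y / (D.d * D.ν ^ (i : ℕ))⌋ with hm
  have hpos : ∀ i : Fin D.d, 0 < D.d * D.ν ^ (i : ℕ) := fun i => by
    have h1 := D.ν_pow i
    have h2 := D.d_pos
    positivity
  have hm0 : ∀ i, 0 ≤ m i := fun i => Int.floor_nonneg.2 (div_nonneg hY (hpos i).le)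
  have h1 : (Fintype.piFinset (fun i : Fin D.d => Finset.Icc (-(m i)) (m i))).card ≤
      (D.fin Y).toFinset.card := by
    apply Finset.card_le_card_of_injOn D.b.equivFun.symm
    · intro u hu
      rw [Finset.mem_coe, Fintype.mem_piFinset] at hu
      rw [Finset.mem_coe, Set.Finite.mem_toFinset, Set.mem_ofPred_eq,
        Module.Basis.equivFun_symm_apply]
      refine (D.sz_sum _ _).trans ?_
      have h2 : ∀ i ∈ (Finset.univ : Finset (Fin D.d)), D.sz (u i • D.b i) ≤ Y / D.d := by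
        intro i _
        rw [D.sz_smul, D.hb, D.sz_pow]
        have h3 : |u i| ≤ m i := abs_le.2 (Finset.mem_Icc.1 (hu i))
        have h4 : |(u i : ℝ)| ≤ Y / (D.d * D.ν ^ (i : ℕ)) := by
          have h5 : |(u i : ℝ)| ≤ (m i : ℝ) := by exact_mod_cast h3
          exact h5.trans (Int.floor_le _)
        have h6 := D.ν_pow i
        calc |(u i : ℝ)| * D.ν ^ (i : ℕ) ≤ Y / (D.d * D.ν ^ (i : ℕ)) * D.ν ^ (i : ℕ) :=
              mul_le_mul_of_nonneg_right h4 (by linarith)
          _ = Y / D.d := by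
            have := D.d_pos
            field_simp
      refine (Finset.sum_le_sum h2).trans ?_
      rw [Finset.sum_const, Finset.card_univ, Fintype.card_fin, nsmul_eq_mul]
      have := D.d_pos
      rw [mul_div_cancel₀]
      exact this.ne'
    · exact D.b.equivFun.symm.injective.injOn
  rw [Fintype.card_piFinset] at h1
  have h2 : D.cc * Y ^ D.d ≤ ∏ i : Fin D.d, ((Finset.Icc (-(m i)) (m i)).card : ℝ) := by
    have h3 : D.cc * Y ^ D.d = ∏ i : Fin D.d, (1 / (D.d * D.ν ^ (i : ℕ)) * Y) := by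
      rw [Finset.prod_mul_distrib, Finset.prod_const, Finset.card_univ, Fintype.card_fin]
      rfl
    rw [h3]
    apply Finset.prod_le_prod
    · intro i _
      exact mul_nonneg (one_div_nonneg.2 (hpos i).le) hY
    · intro i _
      have h4 : ((Finset.Icc (-(m i)) (m i)).card : ℤ) = 2 * m i + 1 := by
        rw [Int.card_Icc]
        have := hm0 i
        omega
      have h5 : ((Finset.Icc (-(m i)) (m i)).card : ℝ) = 2 * (m i : ℝ) + 1 := by exact_mod_cast h4
      rw [h5]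
      have h6 := Int.lt_floor_add_one (Y / (D.d * D.ν ^ (i : ℕ)))
      have h7 : (0 : ℝ) ≤ m i := by exact_mod_cast hm0 i
      have h8 : 1 / (D.d * D.ν ^ (i : ℕ)) * Y = Y / (D.d * D.ν ^ (i : ℕ)) := by ring
      rw [h8]
      have h9 : (m i : ℝ) = (⌊Y / (D.d * D.ν ^ (i : ℕ))⌋ : ℝ) := rfl
      linarith
  refine h2.trans ?_
  exact_mod_cast h1

theorem quot [IsDomain R] (x : R) (hx : x ≠ 0) : Finite (R ⧸ Ideal.span {x}) ∧
    (Nat.card (R ⧸ Ideal.span {x}) : ℝ) ≤ ((D.d.factorial * D.N ^ D.d : ℕ) : ℝ) * D.sz x ^ D.d := by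
  classical
  have : Module.Free ℤ R := Module.Free.of_basis D.b
  have : Module.Finite ℤ R := Module.Finite.of_basis D.b
  refine ⟨Ideal.finiteQuotientOfFreeOfNeBot _ (by rwa [Ne, Ideal.span_singleton_eq_bot]), ?_⟩
  have h1 : (D.b.det ((↑) ∘ (Ideal.basisSpanSingleton D.b hx))).natAbs =
      Nat.card (R ⧸ Ideal.span {x}) :=
    Submodule.natAbs_det_basis_change D.b ((Ideal.span {x}).restrictScalars ℤ) _
  rw [← h1, Module.Basis.det_apply]
  have h2 : ∀ i j, |((D.b.toMatrix (((↑) : Ideal.span {x} → R) ∘ (Ideal.basisSpanSingleton D.b hx)) i j : ℤ) : ℝ)| ≤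
      D.N * D.sz x := by
    intro i j
    rw [Module.Basis.toMatrix_apply, Function.comp_apply, Ideal.basisSpanSingleton_apply, D.hb]
    refine (D.coef_le _ i).trans ?_
    rw [mul_comm, D.sz_pow_mul]
    apply mul_le_mul_of_nonneg_right _ (D.sz_nonneg x)
    rw [← D.hν]
    exact pow_le_pow_right₀ D.hν1 j.2.le
  have h3 := Matrix.det_le (A := (D.b.toMatrix (((↑) : Ideal.span {x} → R) ∘ (Ideal.basisSpanSingleton D.b hx))).map (fun t : ℤ => (t : ℝ)))
    (abv := AbsoluteValue.abs) (x := (D.N * D.sz x)) (fun i j => by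
      rw [Matrix.map_apply]
      exact h2 i j)
  rw [Fintype.card_fin, nsmul_eq_mul] at h3
  have h4 : ((D.b.toMatrix (((↑) : Ideal.span {x} → R) ∘ (Ideal.basisSpanSingleton D.b hx))).map (fun t : ℤ => (t : ℝ))).det =
    (((D.b.toMatrix (((↑) : Ideal.span {x} → R) ∘ (Ideal.basisSpanSingleton D.b hx))).det : ℤ) : ℝ) := by
    have := (Int.castRingHom ℝ).map_det (D.b.toMatrix (((↑) : Ideal.span {x} → R) ∘ (Ideal.basisSpanSingleton D.b hx)))
    exact this.symm
  rw [h4] at h3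
  rw [Nat.cast_natAbs, Int.cast_abs]
  refine le_trans h3 (le_of_eq ?_)
  rw [mul_pow]
  push_cast
  ring

/-- The size data. -/
noncomputable def toSz [IsDomain R] : Sz R where
  N := D.N
  d := D.d
  p := D.p
  sz := D.sz
  ν := D.ν
  c := D.cc
  C := 2 ^ D.d + ((D.d.factorial * D.N ^ D.d : ℕ) : ℝ)
  B := D.N
  hN := D.hN
  hd := D.hd
  hν := D.hν
  hν1 := D.hν1
  hc := D.cc_pos
  hC := by
    have h1 : (1 : ℝ) ≤ 2 ^ D.d := one_le_pow₀ (by norm_num)
    have h2 : (0 : ℝ) ≤ ((D.d.factorial * D.N ^ D.d : ℕ) : ℝ) := by positivity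
    linarith
  hB := by
    have := D.hN
    exact_mod_cast (by omega : 1 ≤ D.N)
  sz_zero := D.sz_zero
  sz_neg := D.sz_neg
  sz_add := D.sz_add
  sz_ge := D.sz_ge
  sz_p := D.sz_p
  sz_one := by
    rw [D.sz_one]
    have := D.hN
    exact_mod_cast (by omega : 1 ≤ D.N)
  fin := D.fin
  card_ge := D.card_ge
  card_le := by
    intro Y hY
    refine (D.card_le Y hY).trans ?_
    apply mul_le_mul_of_nonneg_right _ (by positivity)
    have h2 : (0 : ℝ) ≤ ((D.d.factorial * D.N ^ D.d : ℕ) : ℝ) := by positivity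
    linarith
  quot_fin := fun x hx => (D.quot x hx).1
  quot_le := by
    intro x hx
    refine (D.quot x hx).2.trans ?_
    apply mul_le_mul_of_nonneg_right _ (pow_nonneg (D.sz_nonneg x) _)
    have h2 : (0 : ℝ) ≤ 2 ^ D.d := by positivity
    linarith
  gen := by
    intro S hS
    apply D.span
    intro i
    apply hS
    rw [D.hb, D.sz_pow, ← D.hν]
    exact pow_le_pow_right₀ D.hν1 i.2.le
  dig := D.dig
  dig_inj := D.dig_inj

end Pre

end Pool.Agent.TH730.PiAd
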