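import Pool.Agent.TH730.PiAd.Abs

/-!
The upper bound for the average of the minimal size.
-/

set_option autoImplicit false

namespace Pool.Agent.TH730.PiAd

theorem add_pow_le' {a b : ℝ} (ha : 0 ≤ a) (hb : 0 ≤ b) (d : ℕ) :
    (a + b) ^ d ≤ 2 ^ d * (a ^ d + b ^ d) := by
  rcases le_total a b with h | h
  · calc (a + b) ^ d ≤ (2 * b) ^ d := pow_le_pow_left₀ (by positivity) (by linarith) d
      _ = 2 ^ d * b ^ d := mul_pow _ _ _
      _ ≤ 2 ^ d * (a ^ d + b ^ d) := by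
        have : 0 ≤ a ^ d := by positivity
        apply mul_le_mul_of_nonneg_left _ (by positivity)
        linarith
  · calc (a + b) ^ d ≤ (2 * a) ^ d := pow_le_pow_left₀ (by positivity) (by linarith) d
      _ = 2 ^ d * a ^ d := mul_pow _ _ _
      _ ≤ 2 ^ d * (a ^ d + b ^ d) := by
        have : 0 ≤ b ^ d := by positivity
        apply mul_le_mul_of_nonneg_left _ (by positivity)
        linarith

namespace Sz

variable {R : Type} [CommRing R] [IsDomain R] (D : Sz R)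

theorem ke_pos {G : Type*} [CommRing G] [Finite G] (y : G) : 0 < ke y := Nat.card_pos

theorem ke_bound {n : ℕ} {y : R} (hy : y ≠ 0) : (ke (Ideal.Quotient.mk (D.I n) y) : ℝ) ≤ D.C * D.sz y ^ D.d := by
  have := D.I_finite n
  have := D.quot_fin y hy
  refine le_trans ?_ (D.quot_le y hy)
  exact_mod_cast ke_le (D.I n) y

open Classical in
/-- pairs `(f, v)` with `f = x v` -/
theorem Nx {n : ℕ} [Fintype (R ⧸ D.I n)] {x : R} (hx : x ≠ 0) {Y : ℝ} (hY : 0 ≤ Y) :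
    ((∑ f ∈ D.box Y, (Finset.univ.filter (fun v : R ⧸ D.I n => Ideal.Quotient.mk (D.I n) f = Ideal.Quotient.mk (D.I n) x * v)).card
      : ℕ) : ℝ) ≤ (D.C ^ 2 * 8 ^ D.d / D.c) * ((1 + Y) ^ D.d + D.sz x ^ D.d) := by
  have := D.I_finite n
  set e := ke (Ideal.Quotient.mk (D.I n) x) with he
  have he0 : (0 : ℝ) < e := by exact_mod_cast ke_pos _
  have hC0 : 0 < D.C := by linarith [D.hC]
  have hd0 : D.d ≠ 0 := by have := D.hd; omega
  let F : Finset R := (D.box Y).filter (fun f => Ideal.Quotient.mk (D.I n) x ∣ Ideal.Quotient.mk (D.I n) f)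
  have hsum : (∑ f ∈ D.box Y,
      (Finset.univ.filter (fun v : R ⧸ D.I n => Ideal.Quotient.mk (D.I n) f = Ideal.Quotient.mk (D.I n) x * v)).card) ≤
      F.card * e := by
    rw [← Finset.sum_filter_add_sum_filter_not (D.box Y) (fun f => Ideal.Quotient.mk (D.I n) x ∣ Ideal.Quotient.mk (D.I n) f)]
    have h0 : ∑ f ∈ (D.box Y).filter (fun f => ¬ Ideal.Quotient.mk (D.I n) x ∣ Ideal.Quotient.mk (D.I n) f),
        (Finset.univ.filter (fun v : R ⧸ D.I n => Ideal.Quotient.mk (D.I n) f = Ideal.Quotient.mk (D.I n) x * v)).card = 0 := by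
      apply Finset.sum_eq_zero
      intro f hf
      rw [Finset.card_eq_zero, Finset.filter_eq_empty_iff]
      intro v _ hv
      exact (Finset.mem_filter.1 hf).2 ⟨v, hv⟩
    rw [h0, add_zero, ← smul_eq_mul, ← Finset.sum_const]
    exact Finset.sum_le_sum fun f _ => fib_le _ _
  -- the separation
  set t : ℝ := (e / (D.C * 4 ^ D.d)) ^ ((D.d : ℝ)⁻¹) with ht
  have ht0 : 0 ≤ t := Real.rpow_nonneg (by positivity) _
  have htd : t ^ D.d = e / (D.C * 4 ^ D.d) := by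
    rw [ht, ← Real.rpow_natCast, ← Real.rpow_mul (by positivity), inv_mul_cancel₀, Real.rpow_one]
    exact_mod_cast hd0
  have htpos : 0 < t ^ D.d := by rw [htd]; positivity
  have ht1 : 0 < t := by
    rcases ht0.eq_or_lt with h | h
    · rw [← h, zero_pow hd0] at htpos
      exact absurd htpos (lt_irrefl _)
    · exact h
  have hsep : ∀ f ∈ F, ∀ f' ∈ F, f ≠ f' → 4 * t ≤ D.sz (f - f') := by
    intro f hf f' hf' hne
    have hy : f - f' ≠ 0 := sub_ne_zero.2 hne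
    have h1 : Ideal.Quotient.mk (D.I n) x ∣ Ideal.Quotient.mk (D.I n) (f - f') := by
      rw [map_sub]
      exact dvd_sub (Finset.mem_filter.1 hf).2 (Finset.mem_filter.1 hf').2
    have h2 : (e : ℝ) ≤ D.C * D.sz (f - f') ^ D.d := by
      refine le_trans ?_ (D.ke_bound (n := n) hy)
      exact_mod_cast ke_le_of_dvd h1
    have h3 : (4 * t) ^ D.d ≤ D.sz (f - f') ^ D.d := by
      rw [mul_pow, htd]
      have h4 : (4 : ℝ) ^ D.d * (e / (D.C * 4 ^ D.d)) = e / D.C := by field_simp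
      rw [h4, div_le_iff₀ hC0]
      linarith
    exact (pow_le_pow_iff_left₀ (by positivity) (D.sz_nonneg _) hd0).1 h3
  have hinj : F.card * (D.box t).card ≤ (D.box (Y + t)).card := by
    rw [← Finset.card_product]
    apply Finset.card_le_card_of_injOn (fun z => z.1 + z.2)
    · rintro ⟨f, b⟩ hz
      obtain ⟨h1, h2⟩ := Finset.mem_product.1 (Finset.mem_coe.1 hz)
      refine Finset.mem_coe.2 (D.mem_box.2 ?_)
      have h3 := D.mem_box.1 (Finset.mem_filter.1 h1).1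
      have h4 := D.mem_box.1 h2
      exact (D.sz_add _ _).trans (add_le_add h3 h4)
    · rintro ⟨f, b⟩ hz ⟨f', b'⟩ hz' heq
      obtain ⟨h1, h2⟩ := Finset.mem_product.1 (Finset.mem_coe.1 hz)
      obtain ⟨h1', h2'⟩ := Finset.mem_product.1 (Finset.mem_coe.1 hz')
      simp only at heq h1 h2 h1' h2'
      by_cases hff : f = f'
      · subst hff
        rw [add_left_cancel heq]
      · exfalso
        have h3 := hsep f h1 f' h1' hff
        have h4 : f - f' = b' - b := by linear_combination heq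
        rw [h4] at h3
        have h5 := D.sz_sub b' b
        have h6 := D.mem_box.1 h2
        have h7 := D.mem_box.1 h2'
        linarith
  have h1 : (F.card : ℝ) * (D.c * t ^ D.d) ≤ D.C * (2 ^ D.d * ((1 + Y) ^ D.d + t ^ D.d)) := by
    calc (F.card : ℝ) * (D.c * t ^ D.d) ≤ F.card * (D.box t).card :=
          mul_le_mul_of_nonneg_left (D.box_card_ge ht0) (by positivity)
      _ ≤ (D.box (Y + t)).card := by exact_mod_cast hinj
      _ ≤ D.C * (1 + (Y + t)) ^ D.d := D.box_card_le (by positivity)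
      _ ≤ _ := by
        apply mul_le_mul_of_nonneg_left _ hC0.le
        rw [← add_assoc]
        exact add_pow_le' (by positivity) ht0 _
  have h2 : t ^ D.d ≤ D.sz x ^ D.d := by
    rw [htd, div_le_iff₀ (by positivity)]
    have h3 := D.ke_bound (n := n) hx
    have h4 : (1 : ℝ) ≤ 4 ^ D.d := one_le_pow₀ (by norm_num)
    have h5 : 0 ≤ D.C * D.sz x ^ D.d := by
      have := D.sz_nonneg x
      positivity
    calc (e : ℝ) ≤ D.C * D.sz x ^ D.d := h3
      _ ≤ D.C * D.sz x ^ D.d * 4 ^ D.d := le_mul_of_one_le_right h5 h4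
      _ = D.sz x ^ D.d * (D.C * 4 ^ D.d) := by ring
  have hee : (e : ℝ) = D.C * 4 ^ D.d * t ^ D.d := by rw [htd]; field_simp
  have h8 : (8 : ℝ) ^ D.d = 4 ^ D.d * 2 ^ D.d := by rw [← mul_pow]; norm_num
  calc ((∑ f ∈ D.box Y,
      (Finset.univ.filter (fun v : R ⧸ D.I n => Ideal.Quotient.mk (D.I n) f = Ideal.Quotient.mk (D.I n) x * v)).card : ℕ) : ℝ)
      ≤ F.card * e := by exact_mod_cast hsum
    _ = D.C * 4 ^ D.d / D.c * (F.card * (D.c * t ^ D.d)) := by
        have hcc : D.c / D.c = 1 := div_self D.hc.ne'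
        calc (F.card : ℝ) * e = F.card * (D.C * 4 ^ D.d * t ^ D.d) := by rw [← hee]
          _ = F.card * (D.C * 4 ^ D.d * t ^ D.d) * (D.c / D.c) := by rw [hcc, mul_one]
          _ = _ := by ring
    _ ≤ D.C * 4 ^ D.d / D.c * (D.C * (2 ^ D.d * ((1 + Y) ^ D.d + t ^ D.d))) := by
        have := D.hc
        apply mul_le_mul_of_nonneg_left h1 (by positivity)
    _ ≤ D.C * 4 ^ D.d / D.c * (D.C * (2 ^ D.d * ((1 + Y) ^ D.d + D.sz x ^ D.d))) := by
        have := D.hc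
        gcongr
    _ = _ := by rw [h8]; ring

open Classical in
/-- the image of a box -/
noncomputable def AA (n : ℕ) (v : R ⧸ D.I n) (ρ : ℝ) : Finset (R ⧸ D.I n) :=
  (D.box ρ ×ˢ D.box ρ).image (fun z => Ideal.Quotient.mk (D.I n) z.1 - Ideal.Quotient.mk (D.I n) (D.p * z.2) * v)

open Classical in
/-- the number of lattice points of a box -/
noncomputable def ZZ (n : ℕ) (v : R ⧸ D.I n) (Y : ℝ) : ℕ :=
  ((D.box Y ×ˢ D.box Y).filter
    (fun z => Ideal.Quotient.mk (D.I n) z.1 = Ideal.Quotient.mk (D.I n) (D.p * z.2) * v)).card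

theorem fibre (n : ℕ) (v : R ⧸ D.I n) (ρ : ℝ) :
    (D.box ρ).card ^ 2 ≤ D.ZZ n v (2 * ρ) * (D.AA n v ρ).card := by
  classical
  rw [pow_two, ← Finset.card_product]
  unfold AA
  apply Finset.card_le_mul_card_image
  intro b hb
  obtain ⟨a0, ha0, rfl⟩ := Finset.mem_image.1 hb
  unfold ZZ
  apply Finset.card_le_card_of_injOn (fun a => (a.1 - a0.1, a.2 - a0.2))
  · intro a ha
    obtain ⟨ha1, ha2⟩ := Finset.mem_filter.1 (Finset.mem_coe.1 ha)
    obtain ⟨h1, h2⟩ := Finset.mem_product.1 ha1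
    obtain ⟨h3, h4⟩ := Finset.mem_product.1 ha0
    refine Finset.mem_coe.2 (Finset.mem_filter.2 ⟨Finset.mem_product.2 ⟨?_, ?_⟩, ?_⟩)
    · refine D.mem_box.2 ((D.sz_sub _ _).trans ?_)
      have := D.mem_box.1 h1
      have := D.mem_box.1 h3
      linarith
    · refine D.mem_box.2 ((D.sz_sub _ _).trans ?_)
      have := D.mem_box.1 h2
      have := D.mem_box.1 h4
      linarith
    · simp only [map_sub, map_mul] at ha2 ⊢
      linear_combination ha2
  · intro a _ a' _ heq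
    rw [Prod.mk.injEq] at heq
    exact Prod.ext (sub_left_injective heq.1) (sub_left_injective heq.2)

theorem mem_it {n : ℕ} {v : R ⧸ D.I n} {ρ : ℝ} (j : ℕ) {x : R ⧸ D.I n}
    (hx : x ∈ it (D.AA n v ρ) j) : ∃ f g : R, D.sz f ≤ j * ρ ∧ D.sz g ≤ j * ρ ∧
      x = Ideal.Quotient.mk (D.I n) f - Ideal.Quotient.mk (D.I n) (D.p * g) * v := by
  classical
  induction j generalizing x with
  | zero =>
    refine ⟨0, 0, by simp [D.sz_zero], by simp [D.sz_zero], ?_⟩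
    have h0 : x = 0 := hx
    rw [h0, mul_zero, map_zero, zero_mul, sub_zero]
  | succ j ih =>
    obtain ⟨y, hy, a, ha, rfl⟩ := hx
    obtain ⟨f, g, hf, hg, rfl⟩ := ih hy
    unfold AA at ha
    obtain ⟨⟨f', g'⟩, hz, rfl⟩ := Finset.mem_image.1 ha
    obtain ⟨h1, h2⟩ := Finset.mem_product.1 hz
    have h1' := D.mem_box.1 h1
    have h2' := D.mem_box.1 h2
    refine ⟨f + f', g + g', ?_, ?_, ?_⟩
    · refine (D.sz_add _ _).trans ?_
      push_cast
      linarith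
    · refine (D.sz_add _ _).trans ?_
      push_cast
      linarith
    · simp only [map_add, map_mul]
      ring

theorem cover {n : ℕ} (v : R ⧸ D.I n) {ρ : ℝ} (hρ : D.B ≤ ρ) {k : ℕ}
    (hk : Nat.card (R ⧸ D.I n) < (k + 1) * (D.AA n v ρ).card) :
    ∃ f g : R, D.sz f ≤ (3 * k + 1 : ℕ) * ρ ∧ D.sz g ≤ (3 * k + 1 : ℕ) * ρ ∧
      v = Ideal.Quotient.mk (D.I n) f - Ideal.Quotient.mk (D.I n) (D.p * g) * v := by
  classical
  have := D.I_finite n
  have : Fintype (R ⧸ D.I n) := Fintype.ofFinite _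
  have hρ0 : 0 ≤ ρ := by linarith [D.hB]
  have h0box : (0 : R) ∈ D.box ρ := D.mem_box.2 (by rw [D.sz_zero]; exact hρ0)
  have h0 : (0 : R ⧸ D.I n) ∈ D.AA n v ρ := by
    unfold AA
    refine Finset.mem_image.2 ⟨(0, 0), Finset.mem_product.2 ⟨h0box, h0box⟩, ?_⟩
    simp
  have hneg : ∀ a ∈ D.AA n v ρ, -a ∈ D.AA n v ρ := by
    intro a ha
    unfold AA at ha ⊢
    obtain ⟨⟨f, g⟩, hz, rfl⟩ := Finset.mem_image.1 ha
    obtain ⟨h1, h2⟩ := Finset.mem_product.1 hz
    refine Finset.mem_image.2 ⟨(-f, -g), Finset.mem_product.2 ⟨?_, ?_⟩, ?_⟩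
    · exact D.mem_box.2 (by rw [D.sz_neg]; exact D.mem_box.1 h1)
    · exact D.mem_box.2 (by rw [D.sz_neg]; exact D.mem_box.1 h2)
    · simp only [map_neg, mul_neg]
      ring
  have hgen : ∀ S : AddSubgroup (R ⧸ D.I n), (∀ a ∈ D.AA n v ρ, a ∈ S) → S = ⊤ := by
    intro S hS
    have h1 := D.gen (S.comap (Ideal.Quotient.mk (D.I n)).toAddMonoidHom) (fun x hx => by
      rw [AddSubgroup.mem_comap]
      apply hS
      unfold AA
      refine Finset.mem_image.2 ⟨(x, 0), Finset.mem_product.2 ⟨D.mem_box.2 (hx.trans hρ), h0box⟩, ?_⟩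
      simp)
    rw [eq_top_iff]
    intro y _
    obtain ⟨x, rfl⟩ := Ideal.Quotient.mk_surjective y
    have : x ∈ S.comap (Ideal.Quotient.mk (D.I n)).toAddMonoidHom := by rw [h1]; trivial
    exact this
  have h2 := growth (D.AA n v ρ) h0 hneg hgen k (by rwa [← Nat.card_eq_fintype_card]) v
  exact D.mem_it _ h2

/-- the radius -/
noncomputable def rad (n : ℕ) : ℝ := D.B * √(D.ν ^ n)

theorem νn (n : ℕ) : 1 ≤ D.ν ^ n := one_le_pow₀ D.hν1

theorem B_le_rad (n : ℕ) : D.B ≤ D.rad n := by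
  unfold rad
  have h1 : 1 ≤ √(D.ν ^ n) := by
    rw [Real.one_le_sqrt]
    exact D.νn n
  have := D.hB
  nlinarith

theorem rad_sq (n : ℕ) : (D.rad n ^ D.d) ^ 2 = (D.B ^ D.d) ^ 2 * (D.N : ℝ) ^ n := by
  unfold rad
  have h1 : (√(D.ν ^ n)) ^ 2 = D.ν ^ n := Real.sq_sqrt (by linarith [D.νn n])
  rw [mul_pow, mul_pow, ← D.hν]
  congr 1
  rw [← pow_mul, mul_comm D.d 2, pow_mul, h1, ← pow_mul, ← pow_mul, mul_comm]

theorem one_le_ZZ (n : ℕ) (v : R ⧸ D.I n) {Y : ℝ} (hY : 0 ≤ Y) : 1 ≤ D.ZZ n v Y := by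
  classical
  unfold ZZ
  rw [Nat.one_le_iff_ne_zero, Finset.card_ne_zero]
  have h0box : (0 : R) ∈ D.box Y := D.mem_box.2 (by rw [D.sz_zero]; exact hY)
  exact ⟨(0, 0), Finset.mem_filter.2 ⟨Finset.mem_product.2 ⟨h0box, h0box⟩, by simp⟩⟩

theorem mu_upper (n : ℕ) (V : R) : D.mu n V ≤
    (1 + D.ν) * (3 / D.c ^ 2 + 1) * D.ZZ n (Ideal.Quotient.mk (D.I n) V) (2 * D.rad n) * D.rad n := by
  classical
  have := D.I_finite n
  set v := Ideal.Quotient.mk (D.I n) V with hv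
  set ρ := D.rad n with hρ
  have hρB : D.B ≤ ρ := D.B_le_rad n
  have hρ0 : 0 < ρ := by linarith [D.hB]
  set A := D.AA n v ρ with hA
  set Z := D.ZZ n v (2 * ρ) with hZ
  have hZ1 : (1 : ℝ) ≤ Z := by exact_mod_cast D.one_le_ZZ n v (by positivity)
  have hc := D.hc
  have hν := D.ν_pos
  -- the size of `A`
  have h1 : D.c ^ 2 * (D.N : ℝ) ^ n ≤ Z * A.card := by
    have h2 := D.box_card_ge (Y := ρ) hρ0.le
    have h3 : (D.c * ρ ^ D.d) ^ 2 ≤ ((D.box ρ).card : ℝ) ^ 2 :=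
      pow_le_pow_left₀ (by positivity) h2 2
    have h4 : ((D.box ρ).card : ℝ) ^ 2 ≤ Z * A.card := by exact_mod_cast D.fibre n v ρ
    have h5 : (D.c * ρ ^ D.d) ^ 2 = D.c ^ 2 * ((D.B ^ D.d) ^ 2 * (D.N : ℝ) ^ n) := by
      rw [mul_pow, hρ, D.rad_sq]
    have h6 : (1 : ℝ) ≤ (D.B ^ D.d) ^ 2 := one_le_pow₀ (one_le_pow₀ D.hB)
    have h7 : (D.N : ℝ) ^ n ≤ (D.B ^ D.d) ^ 2 * (D.N : ℝ) ^ n :=
      le_mul_of_one_le_left (by positivity) h6
    calc D.c ^ 2 * (D.N : ℝ) ^ n ≤ D.c ^ 2 * ((D.B ^ D.d) ^ 2 * (D.N : ℝ) ^ n) :=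
          mul_le_mul_of_nonneg_left h7 (by positivity)
      _ ≤ Z * A.card := by rw [← h5]; exact h3.trans h4
  have hNn : (0 : ℝ) < (D.N : ℝ) ^ n := by
    have := D.N_real
    positivity
  have hApos : 0 < A.card := by
    rcases Nat.eq_zero_or_pos A.card with h | h
    · rw [h, Nat.cast_zero, mul_zero] at h1
      have : 0 < D.c ^ 2 * (D.N : ℝ) ^ n := by positivity
      linarith
    · exact h
  have hAr : (0 : ℝ) < A.card := by exact_mod_cast hApos
  set k := Nat.card (R ⧸ D.I n) / A.card with hk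
  have hk1 : Nat.card (R ⧸ D.I n) < (k + 1) * A.card := by
    rw [hk, add_one_mul]
    exact Nat.lt_div_mul_add hApos
  have hk2 : (k : ℝ) ≤ Z / D.c ^ 2 := by
    rw [le_div_iff₀ (by positivity)]
    have h2 : (k : ℝ) * A.card ≤ (D.N : ℝ) ^ n := by
      have h3 : k * A.card ≤ Nat.card (R ⧸ D.I n) := Nat.div_mul_le_self _ _
      rw [D.card_quot] at h3
      exact_mod_cast h3
    have h3 : (k : ℝ) * D.c ^ 2 * A.card ≤ Z * A.card := by
      calc (k : ℝ) * D.c ^ 2 * A.card = D.c ^ 2 * (k * A.card) := by ring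
        _ ≤ D.c ^ 2 * (D.N : ℝ) ^ n := mul_le_mul_of_nonneg_left h2 (by positivity)
        _ ≤ _ := h1
    exact le_of_mul_le_mul_right h3 hAr
  obtain ⟨f, g, hf, hg, hfg⟩ := D.cover v hρB hk1
  have hadm : D.Adm n V f (1 + D.p * g) := by
    refine ⟨⟨1, -g, by ring⟩, ?_⟩
    rw [← D.mk_eq, map_mul, map_add, map_one, ← hv]
    linear_combination hfg
  have hK : (0 : ℝ) ≤ ((3 * k + 1 : ℕ) : ℝ) * ρ := by positivity
  have h2 : D.mu n V ≤ (1 + D.ν) * (((3 * k + 1 : ℕ) : ℝ) * ρ) := by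
    refine (D.mu_le hadm).trans (max_le ?_ ?_)
    · refine hf.trans ?_
      nlinarith
    · refine (D.sz_add _ _).trans ?_
      rw [D.sz_p]
      have h3 : D.sz 1 ≤ ((3 * k + 1 : ℕ) : ℝ) * ρ := by
        have h4 : (1 : ℝ) ≤ ((3 * k + 1 : ℕ) : ℝ) := by
          push_cast
          have : (0 : ℝ) ≤ k := by positivity
          linarith
        have := D.sz_one
        nlinarith
      nlinarith
  refine h2.trans ?_
  have h3 : ((3 * k + 1 : ℕ) : ℝ) ≤ (3 / D.c ^ 2 + 1) * Z := by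
    push_cast
    have h4 : (3 / D.c ^ 2 + 1) * (Z : ℝ) = 3 * (Z / D.c ^ 2) + Z := by ring
    rw [h4]
    linarith
  calc (1 + D.ν) * (((3 * k + 1 : ℕ) : ℝ) * ρ) ≤ (1 + D.ν) * (((3 / D.c ^ 2 + 1) * Z) * ρ) := by
        gcongr
    _ = _ := by ring

/-- multiples of `p ^ n` in a box -/
theorem count_mult (n : ℕ) [DecidableEq (R ⧸ D.I n)] :
    ((D.box (2 * D.rad n)).filter (fun f => Ideal.Quotient.mk (D.I n) f = 0)).card ≤ (D.box (2 * D.B)).card := by
  classical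
  have hex : ∀ f : R, ∃ t : R, Ideal.Quotient.mk (D.I n) f = 0 → f = D.p ^ n * t := by
    intro f
    by_cases h : Ideal.Quotient.mk (D.I n) f = 0
    · rw [Ideal.Quotient.eq_zero_iff_mem] at h
      obtain ⟨t, ht⟩ := Ideal.mem_span_singleton.1 h
      exact ⟨t, fun _ => ht⟩
    · exact ⟨0, fun h' => absurd h' h⟩
  choose t ht using hex
  have hszp : ∀ (m : ℕ) (x : R), D.sz (D.p ^ m * x) = D.ν ^ m * D.sz x := by
    intro m
    induction m with
    | zero => intro x; simp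
    | succ m ih =>
      intro x
      rw [pow_succ', mul_assoc, D.sz_p, ih, pow_succ']
      ring
  apply Finset.card_le_card_of_injOn t
  · intro f hf
    obtain ⟨h1, h2⟩ := Finset.mem_filter.1 (Finset.mem_coe.1 hf)
    refine Finset.mem_coe.2 (D.mem_box.2 ?_)
    have h3 := D.mem_box.1 h1
    rw [ht f h2, hszp] at h3
    have h4 := D.νn n
    have h5 : √(D.ν ^ n) ≤ D.ν ^ n := by
      rw [Real.sqrt_le_left (by linarith)]
      nlinarith
    have h6 : D.ν ^ n * D.sz (t f) ≤ D.ν ^ n * (2 * D.B) := by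
      refine h3.trans ?_
      unfold rad
      have := D.hB
      nlinarith
    exact le_of_mul_le_mul_left h6 (by linarith)
  · intro f hf f' hf' heq
    rw [ht f (Finset.mem_filter.1 (Finset.mem_coe.1 hf)).2,
      ht f' (Finset.mem_filter.1 (Finset.mem_coe.1 hf')).2, heq]

theorem sum_ZZ : ∃ K : ℝ, 0 ≤ K ∧ ∀ (n : ℕ) [Fintype (R ⧸ D.I n)],
    ((∑ v : R ⧸ D.I n, D.ZZ n v (2 * D.rad n) : ℕ) : ℝ) ≤ K * (D.N : ℝ) ^ n := by
  classical
  have hC0 : 0 < D.C := by linarith [D.hC]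
  have hB1 := D.hB
  have hc := D.hc
  have hN0 : (0 : ℝ) < D.N := by linarith [D.N_real]
  set K1 : ℝ := D.C ^ 2 * 8 ^ D.d / D.c with hK1
  have hK10 : 0 < K1 := by positivity
  refine ⟨D.C * (1 + 2 * D.B) ^ D.d +
    D.C * 3 ^ D.d * (K1 * (3 ^ D.d + 2 ^ D.d * D.N)) * (D.B ^ D.d) ^ 2, by positivity, ?_⟩
  intro n _
  set ρ := D.rad n with hρ
  have hρB : D.B ≤ ρ := D.B_le_rad n
  have hρ1 : 1 ≤ ρ := by linarith
  have hq : Fintype.card (R ⧸ D.I n) = D.N ^ n := by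
    rw [← Nat.card_eq_fintype_card, D.card_quot]
  -- rearrange
  have hsum : (∑ v : R ⧸ D.I n, D.ZZ n v (2 * ρ)) = ∑ g ∈ D.box (2 * ρ), ∑ f ∈ D.box (2 * ρ),
      (Finset.univ.filter (fun v : R ⧸ D.I n => Ideal.Quotient.mk (D.I n) f = Ideal.Quotient.mk (D.I n) (D.p * g) * v)).card := by
    unfold ZZ
    simp only [Finset.card_filter]
    rw [Finset.sum_comm]
    rw [Finset.sum_product_right]
  have hterm0 : (∑ f ∈ D.box (2 * ρ),
      (Finset.univ.filter (fun v : R ⧸ D.I n => Ideal.Quotient.mk (D.I n) f = Ideal.Quotient.mk (D.I n) (D.p * 0) * v)).card) ≤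
      (D.box (2 * D.B)).card * D.N ^ n := by
    have h1 : ∀ f ∈ D.box (2 * ρ),
        (Finset.univ.filter (fun v : R ⧸ D.I n => Ideal.Quotient.mk (D.I n) f = Ideal.Quotient.mk (D.I n) (D.p * 0) * v)).card =
        if Ideal.Quotient.mk (D.I n) f = 0 then D.N ^ n else 0 := by
      intro f _
      simp only [mul_zero, map_zero, zero_mul]
      by_cases h : Ideal.Quotient.mk (D.I n) f = 0
      · simp only [h, if_true, Finset.filter_true, Finset.card_univ, hq]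
      · simp only [h, if_false, Finset.filter_false, Finset.card_empty]
    rw [Finset.sum_congr rfl h1, ← Finset.sum_filter, Finset.sum_const, smul_eq_mul]
    exact Nat.mul_le_mul_right _ (D.count_mult n)
  have hterm : ∀ g ∈ D.box (2 * ρ), g ≠ 0 → ((∑ f ∈ D.box (2 * ρ),
      (Finset.univ.filter (fun v : R ⧸ D.I n =>
        Ideal.Quotient.mk (D.I n) f = Ideal.Quotient.mk (D.I n) (D.p * g) * v)).card : ℕ) : ℝ) ≤
      K1 * (3 ^ D.d + 2 ^ D.d * D.N) * ρ ^ D.d := by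
    intro g hg hg0
    have h1 := D.Nx (n := n) (x := D.p * g) (mul_ne_zero D.p_ne hg0) (Y := 2 * ρ) (by positivity)
    refine h1.trans ?_
    rw [← hK1, mul_assoc]
    apply mul_le_mul_of_nonneg_left _ hK10.le
    have h2 : (1 + 2 * ρ) ^ D.d ≤ 3 ^ D.d * ρ ^ D.d := by
      rw [← mul_pow]
      exact pow_le_pow_left₀ (by positivity) (by linarith) _
    have h3 : D.sz (D.p * g) ^ D.d ≤ 2 ^ D.d * D.N * ρ ^ D.d := by
      rw [D.sz_p, mul_pow, D.hν]
      have h4 : D.sz g ^ D.d ≤ (2 * ρ) ^ D.d :=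
        pow_le_pow_left₀ (D.sz_nonneg _) (D.mem_box.1 hg) _
      rw [mul_pow] at h4
      calc (D.N : ℝ) * D.sz g ^ D.d ≤ D.N * (2 ^ D.d * ρ ^ D.d) :=
            mul_le_mul_of_nonneg_left h4 hN0.le
        _ = _ := by ring
    rw [add_mul]
    exact add_le_add h2 h3
  have h0box : (0 : R) ∈ D.box (2 * ρ) := D.mem_box.2 (by rw [D.sz_zero]; positivity)
  rw [hsum, ← Finset.add_sum_erase _ _ h0box]
  have hmain : ((∑ g ∈ (D.box (2 * ρ)).erase 0, ∑ f ∈ D.box (2 * ρ),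
      (Finset.univ.filter (fun v : R ⧸ D.I n =>
        Ideal.Quotient.mk (D.I n) f = Ideal.Quotient.mk (D.I n) (D.p * g) * v)).card : ℕ) : ℝ) ≤
      D.C * 3 ^ D.d * (K1 * (3 ^ D.d + 2 ^ D.d * D.N)) * (D.B ^ D.d) ^ 2 * (D.N : ℝ) ^ n := by
    rw [Nat.cast_sum]
    have h1 : ∀ g ∈ (D.box (2 * ρ)).erase 0, ((∑ f ∈ D.box (2 * ρ),
        (Finset.univ.filter (fun v : R ⧸ D.I n =>
          Ideal.Quotient.mk (D.I n) f = Ideal.Quotient.mk (D.I n) (D.p * g) * v)).card : ℕ) : ℝ) ≤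
        K1 * (3 ^ D.d + 2 ^ D.d * D.N) * ρ ^ D.d := by
      intro g hg
      obtain ⟨h2, h3⟩ := Finset.mem_erase.1 hg
      exact hterm g h3 h2
    refine (Finset.sum_le_sum h1).trans ?_
    rw [Finset.sum_const, nsmul_eq_mul]
    have h2 : (((D.box (2 * ρ)).erase 0).card : ℝ) ≤ D.C * (3 ^ D.d * ρ ^ D.d) := by
      have h3 : ((D.box (2 * ρ)).erase 0).card ≤ (D.box (2 * ρ)).card :=
        Finset.card_erase_le
      have h4 := D.box_card_le (Y := 2 * ρ) (by positivity)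
      have h5 : (1 + 2 * ρ) ^ D.d ≤ 3 ^ D.d * ρ ^ D.d := by
        rw [← mul_pow]
        exact pow_le_pow_left₀ (by positivity) (by linarith) _
      calc (((D.box (2 * ρ)).erase 0).card : ℝ) ≤ (D.box (2 * ρ)).card := by exact_mod_cast h3
        _ ≤ _ := h4
        _ ≤ _ := mul_le_mul_of_nonneg_left h5 hC0.le
    calc (((D.box (2 * ρ)).erase 0).card : ℝ) * (K1 * (3 ^ D.d + 2 ^ D.d * D.N) * ρ ^ D.d)
        ≤ D.C * (3 ^ D.d * ρ ^ D.d) * (K1 * (3 ^ D.d + 2 ^ D.d * D.N) * ρ ^ D.d) := by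
          apply mul_le_mul_of_nonneg_right h2
          positivity
      _ = D.C * 3 ^ D.d * (K1 * (3 ^ D.d + 2 ^ D.d * D.N)) * (ρ ^ D.d) ^ 2 := by ring
      _ = _ := by rw [hρ, D.rad_sq]; ring
  have h0 : ((∑ f ∈ D.box (2 * ρ), (Finset.univ.filter (fun v : R ⧸ D.I n =>
      Ideal.Quotient.mk (D.I n) f = Ideal.Quotient.mk (D.I n) (D.p * 0) * v)).card : ℕ) : ℝ) ≤
      D.C * (1 + 2 * D.B) ^ D.d * (D.N : ℝ) ^ n := by
    have h1 := D.box_card_le (Y := 2 * D.B) (by positivity)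
    calc _ ≤ (((D.box (2 * D.B)).card * D.N ^ n : ℕ) : ℝ) := by exact_mod_cast hterm0
      _ = ((D.box (2 * D.B)).card : ℝ) * (D.N : ℝ) ^ n := by push_cast; rfl
      _ ≤ _ := mul_le_mul_of_nonneg_right h1 (by positivity)
  push_cast at h0 hmain ⊢
  rw [add_mul]
  exact add_le_add h0 hmain

end Sz

end Pool.Agent.TH730.PiAd
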